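import Mathlib

/-!
# Algebraic curvature operators, curvature cones and Ricci flow invariance: definitions

The space `S²_B(Λ²ℝⁿ)` of algebraic curvature operators is described by 4-tensors
`R i j k l = ⟨R(eᵢ ∧ eⱼ), eₖ ∧ eₗ⟩`.
-/


set_option autoImplicit false

namespace Pool.Agent.Helper81.RFCone

noncomputable section

open Finset

/-- Real 4-tensors on `ℝⁿ`. A tensor `R` encodes a bilinear form on `Λ²ℝⁿ` through
`⟨R(eᵢ ∧ eⱼ), eₖ ∧ eₗ⟩ = R i j k l`, where `e₁, …, eₙ` is the standard orthonormal basis. -/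
abbrev Tensor4 (n : ℕ) := Fin n → Fin n → Fin n → Fin n → ℝ

/-- Algebraic curvature operators, i.e. the elements of `S²_B(Λ²ℝⁿ)`: antisymmetry in the first
(hence also in the last) pair of indices, self-adjointness, and the first Bianchi identity. -/
def IsCurvOp {n : ℕ} (R : Tensor4 n) : Prop :=
  (∀ i j k l, R j i k l = - R i j k l) ∧ (∀ i j k l, R k l i j = R i j k l) ∧
  (∀ i j k l, R i j k l + R j k i l + R k i j l = 0)

/-- The natural action of an `n × n` matrix on 4-tensors (used for orthogonal matrices). -/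
def act {n : ℕ} (g : Matrix (Fin n) (Fin n) ℝ) (R : Tensor4 n) : Tensor4 n :=
  fun i j k l => ∑ a, ∑ b, ∑ c, ∑ d, g i a * g j b * g k c * g l d * R a b c d

/-- The identity operator of `Λ²ℝⁿ`, the curvature operator of the round sphere. -/
def idOp (n : ℕ) : Tensor4 n := fun i j k l =>
  (if i = k ∧ j = l then 1 else 0) - (if i = l ∧ j = k then 1 else 0)

/-- The composition square `R²` of `R` as an endomorphism of `Λ²ℝⁿ` (the factor `1/2` accounts
for summing over all ordered pairs `(p, q)`, while an orthonormal basis of `Λ²ℝⁿ` has `p < q`). -/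
def square {n : ℕ} (R : Tensor4 n) : Tensor4 n := fun i j k l =>
  (1 / 2) * ∑ p, ∑ q, R i j p q * R p q k l

/-- `R^# = ad ∘ (R ∧ R) ∘ ad*` in indices (Hamilton's formula); see `sharp_eq_ad` below for the
proof that this is the Lie-algebraic expression. -/
def sharp {n : ℕ} (R : Tensor4 n) : Tensor4 n := fun i j k l =>
  ∑ p, ∑ q, (R i p k q * R j p l q - R i p l q * R j p k q)

/-- `Q(R) = R² + R^#`. -/
def Q {n : ℕ} (R : Tensor4 n) : Tensor4 n := square R + sharp R

/-- Scalar curvature. -/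
def scal {n : ℕ} (R : Tensor4 n) : ℝ := ∑ i, ∑ j, R i j i j

/-- `quad R x y = ⟨R(x ∧ y), x ∧ y⟩`. -/
def quad {n : ℕ} (R : Tensor4 n) (x y : Fin n → ℝ) : ℝ :=
  ∑ i, ∑ j, ∑ k, ∑ l, R i j k l * x i * y j * x k * y l

/-- Nonnegative sectional curvature: `⟨R(x ∧ y), x ∧ y⟩ ≥ 0` for all orthonormal `x, y`. -/
def HasNonnegSec {n : ℕ} (R : Tensor4 n) : Prop :=
  ∀ x y : Fin n → ℝ, ∑ i, x i * x i = 1 → ∑ i, y i * y i = 1 → ∑ i, x i * y i = 0 →
    0 ≤ quad R x y

/-- Curvature cones: closed convex `O(n)`-invariant cones in `S²_B(Λ²ℝⁿ)`, containing the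
identity operator in their interior (relative to `S²_B(Λ²ℝⁿ)`), and not the whole space. -/
structure IsCurvatureCone (n : ℕ) (C : Set (Tensor4 n)) : Prop where
  subset : ∀ R ∈ C, IsCurvOp R
  isClosed : IsClosed C
  add_mem : ∀ R ∈ C, ∀ S ∈ C, R + S ∈ C
  smul_mem : ∀ c : ℝ, 0 ≤ c → ∀ R ∈ C, c • R ∈ C
  act_mem : ∀ g ∈ Matrix.orthogonalGroup (Fin n) ℝ, ∀ R ∈ C, act g R ∈ C
  idOp_interior : ∃ ε > 0, ∀ R : Tensor4 n, IsCurvOp R →
    (∀ i j k l, |R i j k l - idOp n i j k l| < ε) → R ∈ C
  ne_whole : ∃ R : Tensor4 n, IsCurvOp R ∧ R ∉ C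

/-- Ricci flow invariance: every solution `γ : [0, T) → S²_B(Λ²ℝⁿ)` of the ODE `R' = Q(R)` that
starts in `C` stays in `C`. -/
def RicciFlowInvariant (n : ℕ) (C : Set (Tensor4 n)) : Prop :=
  ∀ (T : ℝ) (γ : ℝ → Tensor4 n), 0 < T → γ 0 ∈ C →
    (∀ t ∈ Set.Ico 0 T, IsCurvOp (γ t)) →
    (∀ t ∈ Set.Ico 0 T, HasDerivWithinAt γ (Q (γ t)) (Set.Ico 0 T) t) →
    ∀ t ∈ Set.Ico 0 T, γ t ∈ C

/-! ### Sanity check: the index formula for `R^#` is `ad ∘ (R ∧ R) ∘ ad*` -/

/-- The matrix of `R (eₚ ∧ e_q)` in so(n). -/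
def opMat {n : ℕ} (R : Tensor4 n) (p q : Fin n) : Matrix (Fin n) (Fin n) ℝ := Matrix.of fun a b => R p q a b

/-- The matrix of `eₚ ∧ e_q` in so(n). -/
def basisMat {n : ℕ} (p q : Fin n) : Matrix (Fin n) (Fin n) ℝ := Matrix.of fun a b =>
  (if a = p ∧ b = q then 1 else 0) - (if a = q ∧ b = p then 1 else 0)

/-- commutator -/
def brk {n : ℕ} (A B : Matrix (Fin n) (Fin n) ℝ) : Matrix (Fin n) (Fin n) ℝ := A * B - B * A

lemma sum_basisMat {n : ℕ} (X : Fin n → Fin n → ℝ) (hX : ∀ p q, X q p = - X p q) (k m : Fin n) :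
    ∑ p, ∑ q, X p q * basisMat p q k m = 2 * X k m := by
  have h1 : ∀ p q : Fin n, X p q * basisMat p q k m =
      (if k = p then (if m = q then X p q else 0) else 0) - (if m = p then (if k = q then X p q else 0) else 0) := by
    intro p q
    have e : ∀ P T : Prop, ∀ [Decidable P] [Decidable T],
        (if P ∧ T then (1 : ℝ) else 0) = (if P then 1 else 0) * (if T then 1 else 0) := by
      intro P T _ _
      by_cases hP : P <;> by_cases hT : T <;> simp [hP, hT]
    have e' : ∀ P T : Prop, ∀ [Decidable P] [Decidable T], ∀ x : ℝ,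
        (if P then (if T then x else 0) else 0) = x * ((if P then 1 else 0) * (if T then 1 else 0)) := by
      intro P T _ _ x
      by_cases hP : P <;> by_cases hT : T <;> simp [hP, hT]
    simp only [basisMat, Matrix.of_apply]
    rw [e, e, e', e']
    ring
  simp only [h1, Finset.sum_sub_distrib]
  simp
  rw [hX k m]
  ring

/-- The index formula for `R^#` is `ad ∘ (R ∧ R) ∘ ad*`: for the orthonormal basis
`eₚ ∧ e_q` (p < q) of Λ²ℝⁿ ≅ so(n), each double sum over all ordered pairs counts every basis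
element twice. -/
theorem sharp_eq_ad {n : ℕ} {R : Tensor4 n} (hR : IsCurvOp R) (i j k l : Fin n) :
    sharp R i j k l = (1 / 8) * ∑ p, ∑ q, ∑ r, ∑ s,
      (brk (opMat R p q) (opMat R r s)) i j * (brk (basisMat p q) (basisMat r s)) k l := by
  have hR4 : ∀ i j k l, R i j l k = - R i j k l := by
    intro i j k l
    rw [← hR.2.1, hR.1, hR.2.1]
  set Y : Fin n → Fin n → Fin n → Fin n → ℝ := fun p q r s => (brk (opMat R p q) (opMat R r s)) i j with hY
  have hYe : ∀ p q r s, Y p q r s = ∑ a, (R p q i a * R r s a j - R r s i a * R p q a j) := by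
    intro p q r s
    simp only [hY, brk, Matrix.sub_apply, Matrix.mul_apply, opMat, Matrix.of_apply, Finset.sum_sub_distrib]
  have y1 : ∀ p q r s, Y q p r s = - Y p q r s := by
    intro p q r s
    rw [hYe, hYe, ← Finset.sum_neg_distrib]
    refine Finset.sum_congr rfl fun a _ => ?_
    rw [hR.1 p q i a, hR.1 p q a j]; ring
  have y2 : ∀ p q r s, Y p q s r = - Y p q r s := by
    intro p q r s
    rw [hYe, hYe, ← Finset.sum_neg_distrib]
    refine Finset.sum_congr rfl fun a _ => ?_
    rw [hR.1 r s i a, hR.1 r s a j]; ring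
  have y3 : ∀ p q r s, Y r s p q = - Y p q r s := by
    intro p q r s
    rw [hYe, hYe, ← Finset.sum_neg_distrib]
    refine Finset.sum_congr rfl fun a _ => ?_
    ring
  have step : ∀ m, ∑ p, ∑ q, ∑ r, ∑ s, Y p q r s * (basisMat p q k m * basisMat r s m l) =
      4 * Y k m m l := by
    intro m
    have : ∀ p q, ∑ r, ∑ s, Y p q r s * (basisMat p q k m * basisMat r s m l)
        = (2 * Y p q m l) * basisMat p q k m := by
      intro p q
      rw [← sum_basisMat (fun r s => Y p q r s) (fun r s => y2 p q r s) m l, Finset.sum_mul]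
      refine Finset.sum_congr rfl fun r _ => ?_
      rw [Finset.sum_mul]
      refine Finset.sum_congr rfl fun s _ => ?_
      ring
    rw [Finset.sum_congr rfl fun p _ => Finset.sum_congr rfl fun q _ => this p q]
    rw [sum_basisMat (fun p q => 2 * Y p q m l) (fun p q => by rw [y1]; ring) k m]
    ring
  have step2 : ∀ m, ∑ p, ∑ q, ∑ r, ∑ s, Y p q r s * (basisMat r s k m * basisMat p q m l) =
      - (4 * Y k m m l) := by
    intro m
    have : ∀ p q, ∑ r, ∑ s, Y p q r s * (basisMat r s k m * basisMat p q m l)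
        = (2 * Y p q k m) * basisMat p q m l := by
      intro p q
      rw [← sum_basisMat (fun r s => Y p q r s) (fun r s => y2 p q r s) k m, Finset.sum_mul]
      refine Finset.sum_congr rfl fun r _ => ?_
      rw [Finset.sum_mul]
      refine Finset.sum_congr rfl fun s _ => ?_
      ring
    rw [Finset.sum_congr rfl fun p _ => Finset.sum_congr rfl fun q _ => this p q]
    rw [sum_basisMat (fun p q => 2 * Y p q k m) (fun p q => by rw [y1]; ring) m l, y3]
    ring
  have total : ∑ p, ∑ q, ∑ r, ∑ s,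
      (brk (opMat R p q) (opMat R r s)) i j * (brk (basisMat p q) (basisMat r s)) k l
      = ∑ m, (8 * Y k m m l) := by
    have e1 : ∀ p q r s, (brk (opMat R p q) (opMat R r s)) i j * (brk (basisMat p q) (basisMat r s)) k l
        = ∑ m, (Y p q r s * (basisMat p q k m * basisMat r s m l)
          - Y p q r s * (basisMat r s k m * basisMat p q m l)) := by
      intro p q r s
      simp only [hY]
      rw [brk, brk]
      simp only [Matrix.sub_apply, Matrix.mul_apply, Finset.sum_sub_distrib, ← Finset.mul_sum]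
      ring
    have e2 : ∑ p, ∑ q, ∑ r, ∑ s,
        (brk (opMat R p q) (opMat R r s)) i j * (brk (basisMat p q) (basisMat r s)) k l
        = ∑ m, (∑ p, ∑ q, ∑ r, ∑ s, Y p q r s * (basisMat p q k m * basisMat r s m l)
          - ∑ p, ∑ q, ∑ r, ∑ s, Y p q r s * (basisMat r s k m * basisMat p q m l)) := by
      simp only [e1, ← Finset.sum_sub_distrib]
      calc ∑ p, ∑ q, ∑ r, ∑ s, ∑ m, (Y p q r s * (basisMat p q k m * basisMat r s m l)
          - Y p q r s * (basisMat r s k m * basisMat p q m l))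
          = ∑ p, ∑ q, ∑ r, ∑ m, ∑ s, (Y p q r s * (basisMat p q k m * basisMat r s m l)
          - Y p q r s * (basisMat r s k m * basisMat p q m l)) :=
            Finset.sum_congr rfl fun p _ => Finset.sum_congr rfl fun q _ =>
              Finset.sum_congr rfl fun r _ => Finset.sum_comm
        _ = ∑ p, ∑ q, ∑ m, ∑ r, ∑ s, (Y p q r s * (basisMat p q k m * basisMat r s m l)
          - Y p q r s * (basisMat r s k m * basisMat p q m l)) :=
            Finset.sum_congr rfl fun p _ => Finset.sum_congr rfl fun q _ => Finset.sum_comm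
        _ = ∑ p, ∑ m, ∑ q, ∑ r, ∑ s, (Y p q r s * (basisMat p q k m * basisMat r s m l)
          - Y p q r s * (basisMat r s k m * basisMat p q m l)) :=
            Finset.sum_congr rfl fun p _ => Finset.sum_comm
        _ = _ := Finset.sum_comm
    rw [e2]
    refine Finset.sum_congr rfl fun m _ => ?_
    rw [step, step2]; ring
  rw [total, ← Finset.mul_sum]
  have fin : sharp R i j k l = ∑ m, Y k m m l := by
    have e1 : sharp R i j k l = ∑ p, ∑ m, (R i p k m * R j p l m - R i p l m * R j p k m) := rfl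
    rw [e1, Finset.sum_comm]
    refine Finset.sum_congr rfl fun m _ => ?_
    rw [hYe]
    refine Finset.sum_congr rfl fun a _ => ?_
    have f1 : R k m i a = R i a k m := hR.2.1 i a k m
    have f2 : R m l a j = R j a l m := by rw [hR.2.1 a j m l, hR.1 j a m l, hR4 j a l m]; ring
    have f3 : R m l i a = - R i a l m := by rw [hR.2.1 i a m l, hR4 i a l m]
    have f4 : R k m a j = - R j a k m := by rw [hR.2.1 a j k m, hR.1 j a k m]
    rw [f1, f2, f3, f4]; ring
  rw [fin]; ring

end

end Pool.Agent.Helper81.RFCone
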