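import Pool.Agent.Helper81.RFCone.Defs

/-!
# Ricci flow invariant curvature cones containing all operators with nonnegative sectional curvature

For every `n ≥ 4` (in particular for every odd `n ≥ 5`) the cone `C_scal = {scal ≥ 0}` is the only
Ricci flow invariant curvature cone in `S²_B(Λ²ℝⁿ)` that contains all algebraic curvature operators
with nonnegative sectional curvature.

Idea of the proof. Let `C` be such a cone.
* In `ℝ⁴ ⊕ ℝⁿ⁻⁴` the operator `(I₄ + 2 W) ⊕ 0`, with `W` the Weyl part of the curvature operator of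
  `ℂP²`, has nonnegative sectional curvature, and `a (I₄ ⊕ 0) + b (W ⊕ 0)` evolves by
  `a' = 3 a²`, `b' = 3 b²`; as `b > a` the Weyl part blows up first, so `W ⊕ 0 ∈ C`.
* Reflections and permutations give `±D ∈ C` for a diagonal Weyl tensor `D` on `ℝ⁴`.
* On the three dimensional space spanned by `I₄`, `F = E₁₂ - E₃₄`, `D` the ODE becomes
  `a' = 3a² + s²/3`, `s' = (2a + 4k) s`, `k' = 3k² + s²/3`. As the coefficient `k` of `D` may be
  changed at will, the slope `s/a` can always be increased inside `C`, hence `F ∈ C`.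
* `D` and `F` give `E_{x∧y} - E_{x∧z} ∈ C` for all orthonormal `x, y, z`, and these span the
  operators of scalar curvature zero.
-/

set_option autoImplicit false

namespace Pool.Agent.Helper81.RFCone

noncomputable section

open Finset

/-! ### bilinear form -/

def B {n : ℕ} (R S : Tensor4 n) : Tensor4 n := fun i j k l =>
  ∑ p, ∑ q, ((1 / 2) * (R i j p q * S p q k l) + (R i p k q * S j p l q - R i p l q * S j p k q))

lemma Q_eq {n : ℕ} (R : Tensor4 n) : Q R = B R R := by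
  funext i j k l
  simp only [Q, square, sharp, B, Pi.add_apply, Finset.mul_sum, ← Finset.sum_add_distrib]

lemma B_add_left {n : ℕ} (R R' S : Tensor4 n) : B (R + R') S = B R S + B R' S := by
  funext i j k l
  simp only [B, Pi.add_apply, ← Finset.sum_add_distrib]
  refine Finset.sum_congr rfl fun p _ => Finset.sum_congr rfl fun q _ => ?_
  ring

lemma B_add_right {n : ℕ} (R S S' : Tensor4 n) : B R (S + S') = B R S + B R S' := by
  funext i j k l
  simp only [B, Pi.add_apply, ← Finset.sum_add_distrib]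
  refine Finset.sum_congr rfl fun p _ => Finset.sum_congr rfl fun q _ => ?_
  ring

lemma B_smul_left {n : ℕ} (c : ℝ) (R S : Tensor4 n) : B (c • R) S = c • B R S := by
  funext i j k l
  simp only [B, Pi.smul_apply, smul_eq_mul, Finset.mul_sum]
  refine Finset.sum_congr rfl fun p _ => Finset.sum_congr rfl fun q _ => ?_
  ring

lemma B_smul_right {n : ℕ} (c : ℝ) (R S : Tensor4 n) : B R (c • S) = c • B R S := by
  funext i j k l
  simp only [B, Pi.smul_apply, smul_eq_mul, Finset.mul_sum]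
  refine Finset.sum_congr rfl fun p _ => Finset.sum_congr rfl fun q _ => ?_
  ring

/-! ### embedding of integral tensors in dimension four -/

abbrev T4 := Fin 4 → Fin 4 → Fin 4 → Fin 4 → ℤ

def emb (n : ℕ) (T : T4) : Tensor4 n := fun i j k l =>
  if h : (i.val < 4 ∧ j.val < 4) ∧ (k.val < 4 ∧ l.val < 4) then
    (T ⟨i.val, h.1.1⟩ ⟨j.val, h.1.2⟩ ⟨k.val, h.2.1⟩ ⟨l.val, h.2.2⟩ : ℝ) else 0

lemma emb_of {n : ℕ} (T : T4) (i j k l : Fin n) (hi : i.val < 4) (hj : j.val < 4)
    (hk : k.val < 4) (hl : l.val < 4) :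
    emb n T i j k l = (T ⟨i.val, hi⟩ ⟨j.val, hj⟩ ⟨k.val, hk⟩ ⟨l.val, hl⟩ : ℝ) := by
  unfold emb
  rw [dif_pos ⟨⟨hi, hj⟩, ⟨hk, hl⟩⟩]

lemma emb_zero {n : ℕ} (T : T4) (i j k l : Fin n)
    (h : ¬ ((i.val < 4 ∧ j.val < 4) ∧ (k.val < 4 ∧ l.val < 4))) :
    emb n T i j k l = 0 := by
  unfold emb
  rw [dif_neg h]

lemma sum_cast {n : ℕ} (hn : 4 ≤ n) (f : Fin n → ℝ) (hf : ∀ p : Fin n, ¬ p.val < 4 → f p = 0) :
    ∑ p, f p = ∑ p : Fin 4, f (Fin.castLE hn p) := by
  symm
  refine Fintype.sum_of_injective (Fin.castLE hn) (Fin.castLE_injective hn) _ _ ?_ (fun _ => rfl)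
  intro i hi
  apply hf
  intro h
  exact hi ⟨⟨i.val, h⟩, by ext; simp⟩

def BZ (R S : T4) : T4 := fun i j k l =>
  ∑ p, ∑ q, (R i j p q * S p q k l + 2 * (R i p k q * S j p l q - R i p l q * S j p k q))

lemma B_emb {n : ℕ} (hn : 4 ≤ n) (R S : T4) :
    B (emb n R) (emb n S) = (1 / 2 : ℝ) • emb n (BZ R S) := by
  funext i j k l
  by_cases h : (i.val < 4 ∧ j.val < 4) ∧ (k.val < 4 ∧ l.val < 4)
  · obtain ⟨⟨hi, hj⟩, hk, hl⟩ := h
    have e1 : (1 / 2 : ℝ) • emb n (BZ R S) i j k l = 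
       (1/2) * ∑ p : Fin 4, ∑ q : Fin 4, ((R ⟨i, hi⟩ ⟨j, hj⟩ p q * S p q ⟨k, hk⟩ ⟨l, hl⟩
         + 2 * (R ⟨i, hi⟩ p ⟨k, hk⟩ q * S ⟨j, hj⟩ p ⟨l, hl⟩ q
          - R ⟨i, hi⟩ p ⟨l, hl⟩ q * S ⟨j, hj⟩ p ⟨k, hk⟩ q) : ℤ) : ℝ) := by
      rw [emb_of _ _ _ _ _ hi hj hk hl]
      simp only [BZ, smul_eq_mul]
      push_cast
      rfl
    simp only [Pi.smul_apply]
    rw [e1]
    unfold B
    rw [sum_cast hn, Finset.mul_sum]
    · refine Finset.sum_congr rfl fun p _ => ?_
      rw [sum_cast hn, Finset.mul_sum]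
      · refine Finset.sum_congr rfl fun q _ => ?_
        rw [emb_of R i j _ _ hi hj (by simp) (by simp), emb_of S _ _ k l (by simp) (by simp) hk hl,
          emb_of R i _ k _ hi (by simp) hk (by simp), emb_of S j _ l _ hj (by simp) hl (by simp),
          emb_of R i _ l _ hi (by simp) hl (by simp), emb_of S j _ k _ hj (by simp) hk (by simp)]
        push_cast
        simp only [Fin.val_castLE, Fin.eta]
        ring
      · intro q hq
        rw [emb_zero R i j _ q (by tauto), emb_zero R i _ k q (by tauto), emb_zero R i _ l q (by tauto)]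
        ring
    · intro p hp
      apply Finset.sum_eq_zero
      intro q _
      rw [emb_zero R i j p q (by tauto), emb_zero R i p k q (by tauto), emb_zero R i p l q (by tauto)]
      ring
  · have e2 : ((1 / 2 : ℝ) • emb n (BZ R S)) i j k l = 0 := by
      simp only [Pi.smul_apply]
      rw [emb_zero _ i j k l h]; simp
    rw [e2]
    unfold B
    apply Finset.sum_eq_zero
    intro p _
    apply Finset.sum_eq_zero
    intro q _
    have h1 : emb n R i j p q * emb n S p q k l = 0 := by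
      by_cases hij : i.val < 4 ∧ j.val < 4
      · rw [emb_zero S p q k l (by tauto)]; ring
      · rw [emb_zero R i j p q (by tauto)]; ring
    have h2 : emb n R i p k q * emb n S j p l q = 0 := by
      by_cases hij : i.val < 4 ∧ k.val < 4
      · rw [emb_zero S j p l q (by tauto)]; ring
      · rw [emb_zero R i p k q (by tauto)]; ring
    have h3 : emb n R i p l q * emb n S j p k q = 0 := by
      by_cases hij : i.val < 4 ∧ l.val < 4
      · rw [emb_zero S j p k q (by tauto)]; ring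
      · rw [emb_zero R i p l q (by tauto)]; ring
    rw [h1, h2, h3]; ring

lemma emb_add {n : ℕ} (S T : T4) : emb n (S + T) = emb n S + emb n T := by
  funext i j k l
  by_cases h : (i.val < 4 ∧ j.val < 4) ∧ (k.val < 4 ∧ l.val < 4)
  · obtain ⟨⟨hi, hj⟩, hk, hl⟩ := h
    simp only [Pi.add_apply]
    rw [emb_of _ _ _ _ _ hi hj hk hl, emb_of _ _ _ _ _ hi hj hk hl, emb_of _ _ _ _ _ hi hj hk hl]
    simp
  · simp only [Pi.add_apply]
    rw [emb_zero _ i j k l h, emb_zero _ i j k l h, emb_zero _ i j k l h]; simp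

lemma emb_smul {n : ℕ} (c : ℤ) (T : T4) : emb n (c • T) = (c : ℝ) • emb n T := by
  funext i j k l
  by_cases h : (i.val < 4 ∧ j.val < 4) ∧ (k.val < 4 ∧ l.val < 4)
  · obtain ⟨⟨hi, hj⟩, hk, hl⟩ := h
    simp only [Pi.smul_apply]
    rw [emb_of _ _ _ _ _ hi hj hk hl, emb_of _ _ _ _ _ hi hj hk hl]
    simp
  · simp only [Pi.smul_apply]
    rw [emb_zero _ i j k l h, emb_zero _ i j k l h]; simp

/-- integral curvature condition -/
def IsCurvZ (T : T4) : Prop :=
  (∀ i j k l, T j i k l = - T i j k l) ∧ (∀ i j k l, T k l i j = T i j k l) ∧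
  (∀ i j k l, T i j k l + T j k i l + T k i j l = 0)

lemma emb_curv {n : ℕ} (T : T4) (h : IsCurvZ T) : IsCurvOp (emb n T) := by
  obtain ⟨h1, h2, h3⟩ := h
  refine ⟨fun i j k l => ?_, fun i j k l => ?_, fun i j k l => ?_⟩
  · by_cases h : (i.val < 4 ∧ j.val < 4) ∧ (k.val < 4 ∧ l.val < 4)
    · obtain ⟨⟨hi, hj⟩, hk, hl⟩ := h
      rw [emb_of _ _ _ _ _ hi hj hk hl, emb_of _ _ _ _ _ hj hi hk hl, h1]
      push_cast; rfl
    · rw [emb_zero _ i j k l h, emb_zero _ j i k l (by tauto)]; simp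
  · by_cases h : (i.val < 4 ∧ j.val < 4) ∧ (k.val < 4 ∧ l.val < 4)
    · obtain ⟨⟨hi, hj⟩, hk, hl⟩ := h
      rw [emb_of _ _ _ _ _ hi hj hk hl, emb_of _ _ _ _ _ hk hl hi hj, h2]
    · rw [emb_zero _ i j k l h, emb_zero _ k l i j (by tauto)]
  · by_cases h : (i.val < 4 ∧ j.val < 4) ∧ (k.val < 4 ∧ l.val < 4)
    · obtain ⟨⟨hi, hj⟩, hk, hl⟩ := h
      rw [emb_of _ _ _ _ _ hi hj hk hl, emb_of _ _ _ _ _ hj hk hi hl, emb_of _ _ _ _ _ hk hi hj hl]
      exact_mod_cast h3 _ _ _ _
    · rw [emb_zero _ i j k l h, emb_zero _ j k i l (by tauto), emb_zero _ k i j l (by tauto)]; simp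

def wZ (a b : Fin 4) : Fin 4 → Fin 4 → ℤ := fun i j =>
  (if i = a ∧ j = b then 1 else 0) - (if i = b ∧ j = a then 1 else 0)

def sqZ (W : Fin 4 → Fin 4 → ℤ) : T4 := fun i j k l => W i j * W k l

def I4 : T4 := sqZ (wZ 0 1) + sqZ (wZ 2 3) + (sqZ (wZ 0 2) + sqZ (wZ 1 3)) + (sqZ (wZ 0 3) + sqZ (wZ 1 2))

def Z4 : T4 := (2 : ℤ) • sqZ (wZ 0 1 + wZ 2 3) + (-1 : ℤ) • sqZ (wZ 0 2 + (-1 : ℤ) • wZ 1 3) + (-1 : ℤ) • sqZ (wZ 0 3 + wZ 1 2)

def F4 : T4 := sqZ (wZ 0 1) + (-1 : ℤ) • sqZ (wZ 2 3)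

def D4 : T4 := 
  (2 : ℤ) • (sqZ (wZ 0 1) + sqZ (wZ 2 3)) + (-1 : ℤ) • (sqZ (wZ 0 2) + sqZ (wZ 1 3))
   + (-1 : ℤ) • (sqZ (wZ 0 3) + sqZ (wZ 1 2))


theorem curv_I4 : IsCurvZ I4 := by unfold IsCurvZ; decide +kernel
theorem curv_Z4 : IsCurvZ Z4 := by unfold IsCurvZ; decide +kernel
theorem curv_F4 : IsCurvZ F4 := by unfold IsCurvZ; decide +kernel
theorem curv_D4 : IsCurvZ D4 := by unfold IsCurvZ; decide +kernel

theorem h1' : ∀ i j k l, BZ I4 I4 i j k l = 6 * I4 i j k l := by decide +kernel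
theorem h2' : ∀ i j k l, BZ I4 Z4 i j k l + BZ Z4 I4 i j k l = 0 := by decide +kernel
theorem h3' : ∀ i j k l, BZ Z4 Z4 i j k l = 12 * Z4 i j k l := by decide +kernel
theorem h4' : ∀ i j k l, 3 * BZ F4 F4 i j k l = 2 * I4 i j k l + 2 * D4 i j k l := by decide +kernel
theorem h5' : ∀ i j k l, BZ I4 F4 i j k l + BZ F4 I4 i j k l = 4 * F4 i j k l := by decide +kernel
theorem h6' : ∀ i j k l, BZ I4 D4 i j k l + BZ D4 I4 i j k l = 0 := by decide +kernel
theorem h7' : ∀ i j k l, BZ F4 D4 i j k l + BZ D4 F4 i j k l = 8 * F4 i j k l := by decide +kernel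
theorem h8' : ∀ i j k l, BZ D4 D4 i j k l = 6 * D4 i j k l := by decide +kernel

theorem h1 : BZ I4 I4 = (6 : ℤ) • I4 := by funext i j k l; exact h1' i j k l
theorem h2 : BZ I4 Z4 + BZ Z4 I4 = (0 : ℤ) • I4 := by
  funext i j k l; simpa using h2' i j k l
theorem h3 : BZ Z4 Z4 = (12 : ℤ) • Z4 := by funext i j k l; exact h3' i j k l
theorem h4 : (3 : ℤ) • BZ F4 F4 = (2 : ℤ) • I4 + (2 : ℤ) • D4 := by funext i j k l; exact h4' i j k l
theorem h5 : BZ I4 F4 + BZ F4 I4 = (4 : ℤ) • F4 := by funext i j k l; exact h5' i j k l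
theorem h6 : BZ I4 D4 + BZ D4 I4 = (0 : ℤ) • I4 := by 
  funext i j k l; simpa using h6' i j k l
theorem h7 : BZ F4 D4 + BZ D4 F4 = (8 : ℤ) • F4 := by funext i j k l; exact h7' i j k l
theorem h8 : BZ D4 D4 = (6 : ℤ) • D4 := by funext i j k l; exact h8' i j k l

lemma Q_family1 {n : ℕ} (hn : 4 ≤ n) (a b : ℝ) :
    Q (a • emb n I4 + b • emb n Z4) = (3 * a ^ 2) • emb n I4 + (6 * b ^ 2) • emb n Z4 := by
  have e1 := B_emb hn I4 I4
  have e2 := B_emb hn I4 Z4
  have e3 := B_emb hn Z4 I4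
  have e4 := B_emb hn Z4 Z4
  rw [h1, emb_smul] at e1
  rw [h3, emb_smul] at e4
  have e5 : B (emb n I4) (emb n Z4) = - B (emb n Z4) (emb n I4) := by
    rw [eq_neg_iff_add_eq_zero, e2, e3, ← smul_add, ← emb_add, h2, emb_smul]; simp
  rw [Q_eq]
  simp only [B_add_left, B_add_right, B_smul_left, B_smul_right, e1, e4, e5]
  push_cast
  module

lemma Q_family2 {n : ℕ} (hn : 4 ≤ n) (a s k : ℝ) :
    Q (a • emb n I4 + s • emb n F4 + k • emb n D4) =
      (3 * a ^ 2 + s ^ 2 / 3) • emb n I4 + ((2 * a + 4 * k) * s) • emb n F4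
        + (3 * k ^ 2 + s ^ 2 / 3) • emb n D4 := by
  have e1 := B_emb hn I4 I4
  have e2 := B_emb hn I4 F4
  have e3 := B_emb hn F4 I4
  have e4 := B_emb hn F4 F4
  have e5 := B_emb hn I4 D4
  have e6 := B_emb hn D4 I4
  have e7 := B_emb hn F4 D4
  have e8 := B_emb hn D4 F4
  have e9 := B_emb hn D4 D4
  rw [h1, emb_smul] at e1
  rw [h8, emb_smul] at e9
  have f4 : emb n (BZ F4 F4) = (2 / 3 : ℝ) • emb n I4 + (2 / 3 : ℝ) • emb n D4 := by
    have : emb n ((3 : ℤ) • BZ F4 F4) = emb n ((2 : ℤ) • I4 + (2 : ℤ) • D4) := by rw [h4]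
    rw [emb_smul, emb_add, emb_smul, emb_smul] at this
    push_cast at this
    have h3 : emb n (BZ F4 F4) = (1 / 3 : ℝ) • ((3 : ℝ) • emb n (BZ F4 F4)) := by module
    rw [h3, this]; module
  rw [f4] at e4
  have f2 : B (emb n I4) (emb n F4) = (2 : ℝ) • emb n F4 - B (emb n F4) (emb n I4) := by
    rw [eq_sub_iff_add_eq, e2, e3, ← smul_add, ← emb_add, h5, emb_smul]; push_cast; module
  have f5 : B (emb n I4) (emb n D4) = - B (emb n D4) (emb n I4) := by
    rw [eq_neg_iff_add_eq_zero, e5, e6, ← smul_add, ← emb_add, h6, emb_smul]; simp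
  have f7 : B (emb n F4) (emb n D4) = (4 : ℝ) • emb n F4 - B (emb n D4) (emb n F4) := by
    rw [eq_sub_iff_add_eq, e7, e8, ← smul_add, ← emb_add, h7, emb_smul]; push_cast; module
  rw [Q_eq]
  simp only [B_add_left, B_add_right, B_smul_left, B_smul_right, e1, e4, e9, f2, f5, f7]
  push_cast
  module

/-! ### first ODE solution -/

lemma curvOp_comb2 {n : ℕ} {R S : Tensor4 n} (hR : IsCurvOp R) (hS : IsCurvOp S) (a b : ℝ) :
    IsCurvOp (a • R + b • S) := by
  obtain ⟨h1, h2, h3⟩ := hR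
  obtain ⟨g1, g2, g3⟩ := hS
  refine ⟨fun i j k l => ?_, fun i j k l => ?_, fun i j k l => ?_⟩
  · simp only [Pi.add_apply, Pi.smul_apply, smul_eq_mul, h1 i j k l, g1 i j k l]; ring
  · simp only [Pi.add_apply, Pi.smul_apply, smul_eq_mul, h2 i j k l, g2 i j k l]
  · simp only [Pi.add_apply, Pi.smul_apply, smul_eq_mul]
    linear_combination a * h3 i j k l + b * g3 i j k l

lemma Z_mem {n : ℕ} (hn : 4 ≤ n) {C : Set (Tensor4 n)} (hC : IsCurvatureCone n C)
    (hflow : RicciFlowInvariant n C) (h0 : emb n I4 + emb n Z4 ∈ C) : emb n Z4 ∈ C := by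
  set γ : ℝ → Tensor4 n := fun t => (1 - 3 * t)⁻¹ • emb n I4 + (1 - 6 * t)⁻¹ • emb n Z4 with hγ
  have hmem : ∀ t ∈ Set.Ico (0 : ℝ) (1 / 6), γ t ∈ C := by
    apply hflow (1 / 6) γ (by norm_num)
    · simp only [hγ]; norm_num; exact h0
    · intro t _
      exact curvOp_comb2 (emb_curv _ curv_I4) (emb_curv _ curv_Z4) _ _
    · intro t ht
      have h3 : (1 - 3 * t) ≠ 0 := by have := ht.2; have := ht.1; intro h; linarith
      have h6 : (1 - 6 * t) ≠ 0 := by have := ht.2; have := ht.1; intro h; linarith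
      have hd3 : HasDerivAt (fun t : ℝ => (1 - 3 * t)⁻¹) (3 * ((1 - 3 * t)⁻¹) ^ 2) t := by
        have : HasDerivAt (fun t : ℝ => 1 - 3 * t) (-3) t := by
          simpa using ((hasDerivAt_id t).const_mul 3).const_sub 1
        have h := this.inv h3
        have e : (3 * ((1 - 3 * t)⁻¹) ^ 2) = -(-3) / (1 - 3 * t) ^ 2 := by
          rw [inv_pow]; ring
        rw [e]; exact h
      have hd6 : HasDerivAt (fun t : ℝ => (1 - 6 * t)⁻¹) (6 * ((1 - 6 * t)⁻¹) ^ 2) t := by
        have : HasDerivAt (fun t : ℝ => 1 - 6 * t) (-6) t := by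
          simpa using ((hasDerivAt_id t).const_mul 6).const_sub 1
        have h := this.inv h6
        have e : (6 * ((1 - 6 * t)⁻¹) ^ 2) = -(-6) / (1 - 6 * t) ^ 2 := by
          rw [inv_pow]; ring
        rw [e]; exact h
      have hQ : Q (γ t) = (3 * ((1 - 3 * t)⁻¹) ^ 2) • emb n I4 + (6 * ((1 - 6 * t)⁻¹) ^ 2) • emb n Z4 :=
        Q_family1 hn _ _
      rw [hQ]
      exact ((hd3.smul_const _).add (hd6.smul_const _)).hasDerivWithinAt
  -- rescaled limit
  have hlim : Filter.Tendsto (fun t : ℝ => ((1 - 6 * t) * (1 - 3 * t)⁻¹) • emb n I4 + emb n Z4)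
      (nhdsWithin (1 / 6) (Set.Ico (0 : ℝ) (1 / 6))) (nhds (emb n Z4)) := by
    have hc : ContinuousAt (fun t : ℝ => ((1 - 6 * t) * (1 - 3 * t)⁻¹) • emb n I4 + emb n Z4) (1 / 6) := by
      have h1 : ContinuousAt (fun t : ℝ => (1 - 6 * t) * (1 - 3 * t)⁻¹) (1 / 6) := by
        apply ContinuousAt.mul (by fun_prop)
        apply ContinuousAt.inv₀ (by fun_prop)
        norm_num
      exact (h1.smul (continuousAt_const (y := emb n I4))).add continuousAt_const
    have := hc.tendsto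
    have h0 : ((1 - 6 * (1 / 6 : ℝ)) * (1 - 3 * (1 / 6))⁻¹) • emb n I4 + emb n Z4 = emb n Z4 := by
      norm_num
    rw [h0] at this
    exact this.mono_left nhdsWithin_le_nhds
  have : (nhdsWithin (1 / 6 : ℝ) (Set.Ico (0 : ℝ) (1 / 6))).NeBot := by
    rw [← mem_closure_iff_nhdsWithin_neBot, closure_Ico (by norm_num)]
    constructor <;> norm_num
  refine hC.isClosed.mem_of_tendsto hlim ?_
  filter_upwards [self_mem_nhdsWithin] with t ht
  have h6 : 0 < (1 - 6 * t) := by have := ht.2; linarith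
  have := hC.smul_mem (1 - 6 * t) h6.le _ (hmem t ht)
  have e : (1 - 6 * t) • γ t = ((1 - 6 * t) * (1 - 3 * t)⁻¹) • emb n I4 + emb n Z4 := by
    simp only [hγ, smul_add, smul_smul]
    rw [mul_inv_cancel₀ h6.ne', one_smul]
  rw [← e]; exact this

/-! ### frames -/

def wedge {n : ℕ} (x y : Fin n → ℝ) : Matrix (Fin n) (Fin n) ℝ :=
  Matrix.of fun i j => x i * y j - x j * y i

def tsq {n : ℕ} (W : Matrix (Fin n) (Fin n) ℝ) : Tensor4 n := fun i j k l => W i j * W k l

lemma act_add {n : ℕ} (g : Matrix (Fin n) (Fin n) ℝ) (R S : Tensor4 n) :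
    act g (R + S) = act g R + act g S := by
  funext i j k l
  simp only [act, Pi.add_apply, mul_add, Finset.sum_add_distrib]

lemma act_smul {n : ℕ} (g : Matrix (Fin n) (Fin n) ℝ) (c : ℝ) (R : Tensor4 n) :
    act g (c • R) = c • act g R := by
  funext i j k l
  simp only [act, Pi.smul_apply, smul_eq_mul, Finset.mul_sum]
  refine Finset.sum_congr rfl fun a _ => Finset.sum_congr rfl fun b _ =>
    Finset.sum_congr rfl fun c _ => Finset.sum_congr rfl fun d _ => ?_
  ring

lemma act_tsq {n : ℕ} (g W : Matrix (Fin n) (Fin n) ℝ) :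
    act g (tsq W) = tsq (g * W * g.transpose) := by
  funext i j k l
  have h : ∀ i j : Fin n, (g * W * g.transpose) i j = ∑ a, ∑ b, g i a * g j b * W a b := by
    intro i j
    simp only [Matrix.mul_apply, Matrix.transpose_apply, Finset.sum_mul]
    rw [Finset.sum_comm]
    refine Finset.sum_congr rfl fun a _ => Finset.sum_congr rfl fun b _ => ?_
    ring
  simp only [act, tsq, h]
  rw [Finset.sum_mul_sum]
  refine Finset.sum_congr rfl fun a _ => ?_
  rw [Finset.sum_comm]
  refine Finset.sum_congr rfl fun c _ => ?_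
  rw [Finset.sum_mul_sum]
  refine Finset.sum_congr rfl fun b _ => Finset.sum_congr rfl fun d _ => ?_
  ring

lemma conj_wedge {n : ℕ} (g : Matrix (Fin n) (Fin n) ℝ) (x y : Fin n → ℝ) :
    g * wedge x y * g.transpose = wedge (g.mulVec x) (g.mulVec y) := by
  have hw : ∀ x y : Fin n → ℝ, wedge x y = Matrix.vecMulVec x y - Matrix.vecMulVec y x := by
    intro x y
    ext i j
    simp [wedge, Matrix.vecMulVec_apply, mul_comm]
  rw [hw, hw]
  rw [Matrix.mul_sub, Matrix.sub_mul]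
  have h2 : ∀ x y : Fin n → ℝ, g * Matrix.vecMulVec x y * g.transpose
      = Matrix.vecMulVec (g.mulVec x) (g.mulVec y) := by
    intro x y
    rw [Matrix.mul_vecMulVec, Matrix.vecMulVec_mul, Matrix.vecMul_transpose]
  rw [h2, h2]

/-- orthonormal 4-frames of ℝⁿ -/
def IsFrame {n : ℕ} (v : Fin 4 → Fin n → ℝ) : Prop :=
  ∀ a b, ∑ i, v a i * v b i = if a = b then 1 else 0

def std {n : ℕ} (hn : 4 ≤ n) : Fin 4 → Fin n → ℝ := fun a => Pi.single (Fin.castLE hn a) 1

lemma frame_exists {n : ℕ} (hn : 4 ≤ n) (v : Fin 4 → Fin n → ℝ) (hv : IsFrame v) :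
    ∃ g ∈ Matrix.orthogonalGroup (Fin n) ℝ, ∀ a, g.mulVec (std hn a) = v a := by
  classical
  set w : Fin n → EuclideanSpace ℝ (Fin n) := fun i =>
    if h : i.val < 4 then WithLp.toLp 2 (v ⟨i.val, h⟩) else 0 with hw
  have horth : Orthonormal ℝ (({i : Fin n | i.val < 4} : Set (Fin n)).domRestrict w) := by
    rw [orthonormal_iff_ite]
    rintro ⟨i, hi⟩ ⟨j, hj⟩
    have hi' : i.val < 4 := hi
    have hj' : j.val < 4 := hj
    simp only [Set.domRestrict_apply, hw, dif_pos hi', dif_pos hj']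
    rw [EuclideanSpace.inner_eq_star_dotProduct]
    have := hv ⟨j.val, hj'⟩ ⟨i.val, hi'⟩
    simp only [dotProduct, star_trivial, Pi.star_apply]
    rw [this]
    simp only [Fin.mk.injEq, Subtype.mk.injEq]
    congr 1
    simp only [eq_iff_iff]
    constructor
    · intro h; ext; exact h.symm
    · intro h; rw [h]
  obtain ⟨b, hb⟩ := horth.exists_orthonormalBasis_extension_of_card_eq (by simp)
  refine ⟨Matrix.of fun i j => b j i, ?_, ?_⟩
  · rw [Matrix.mem_orthogonalGroup_iff']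
    ext i j
    have := orthonormal_iff_ite.mp b.orthonormal i j
    rw [EuclideanSpace.inner_eq_star_dotProduct] at this
    simp only [dotProduct, star_trivial, Pi.star_apply] at this
    simp only [Matrix.mul_apply, Matrix.star_apply, Matrix.of_apply, star_trivial, Matrix.one_apply]
    rw [← this]
    refine Finset.sum_congr rfl fun k _ => ?_
    exact mul_comm _ _
  · intro a
    funext i
    simp only [std, Matrix.mulVec_single_one]
    have h1 : (Fin.castLE hn a).val < 4 := by simp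
    have := hb (Fin.castLE hn a) h1
    simp only [Matrix.col_apply, Matrix.of_apply]
    rw [this]
    simp [hw]

def embM (n : ℕ) (w : Fin 4 → Fin 4 → ℤ) : Matrix (Fin n) (Fin n) ℝ := Matrix.of fun i j =>
  if h : i.val < 4 ∧ j.val < 4 then (w ⟨i.val, h.1⟩ ⟨j.val, h.2⟩ : ℝ) else 0

lemma embM_of {n : ℕ} (w : Fin 4 → Fin 4 → ℤ) (i j : Fin n) (hi : i.val < 4) (hj : j.val < 4) :
    embM n w i j = (w ⟨i.val, hi⟩ ⟨j.val, hj⟩ : ℝ) := by
  simp [embM, hi, hj]

lemma embM_zero {n : ℕ} (w : Fin 4 → Fin 4 → ℤ) (i j : Fin n) (h : ¬ (i.val < 4 ∧ j.val < 4)) :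
    embM n w i j = 0 := by
  simp only [embM, Matrix.of_apply]
  rw [dif_neg h]

lemma emb_sqZ {n : ℕ} (w : Fin 4 → Fin 4 → ℤ) : emb n (sqZ w) = tsq (embM n w) := by
  funext i j k l
  by_cases h : (i.val < 4 ∧ j.val < 4) ∧ (k.val < 4 ∧ l.val < 4)
  · obtain ⟨⟨hi, hj⟩, hk, hl⟩ := h
    simp only [tsq]
    rw [emb_of _ _ _ _ _ hi hj hk hl, embM_of _ _ _ hi hj, embM_of _ _ _ hk hl]
    simp [sqZ]
  · rw [emb_zero _ i j k l h]
    simp only [tsq]
    by_cases h' : i.val < 4 ∧ j.val < 4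
    · rw [embM_zero _ k l (by tauto)]; simp
    · rw [embM_zero _ i j (by tauto)]; simp

lemma embM_add {n : ℕ} (w w' : Fin 4 → Fin 4 → ℤ) : embM n (w + w') = embM n w + embM n w' := by
  ext i j
  by_cases h : i.val < 4 ∧ j.val < 4
  · rw [Matrix.add_apply, embM_of _ _ _ h.1 h.2, embM_of _ _ _ h.1 h.2, embM_of _ _ _ h.1 h.2]
    simp
  · rw [Matrix.add_apply, embM_zero _ _ _ h, embM_zero _ _ _ h, embM_zero _ _ _ h]; simp

lemma embM_smul {n : ℕ} (c : ℤ) (w : Fin 4 → Fin 4 → ℤ) : embM n (c • w) = (c : ℝ) • embM n w := by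
  ext i j
  by_cases h : i.val < 4 ∧ j.val < 4
  · rw [Matrix.smul_apply, embM_of _ _ _ h.1 h.2, embM_of _ _ _ h.1 h.2]
    simp
  · rw [Matrix.smul_apply, embM_zero _ _ _ h, embM_zero _ _ _ h]; simp

lemma embM_wZ {n : ℕ} (hn : 4 ≤ n) (a b : Fin 4) : embM n (wZ a b) = wedge (std hn a) (std hn b) := by
  ext i j
  have key : ∀ (a : Fin 4) (i : Fin n), std hn a i = if i.val = a.val then (1 : ℝ) else 0 := by
    intro a i
    simp only [std, Pi.single_apply, Fin.ext_iff, Fin.val_castLE]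
  have ha := a.isLt
  have hb := b.isLt
  simp only [wedge, Matrix.of_apply, key]
  by_cases h : i.val < 4 ∧ j.val < 4
  · rw [embM_of _ _ _ h.1 h.2]
    have e : ∀ P R : Prop, ∀ [Decidable P] [Decidable R],
        (if P ∧ R then (1 : ℝ) else 0) = (if P then 1 else 0) * (if R then 1 else 0) := by
      intro P R _ _
      by_cases hP : P <;> by_cases hR : R <;> simp [hP, hR]
    simp only [wZ, Fin.ext_iff]
    push_cast
    rw [e, e]
    ring
  · rw [embM_zero _ _ _ h]
    by_cases h1 : i.val = a.val <;> by_cases h2 : i.val = b.val <;> by_cases h3 : j.val = a.val <;>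
      by_cases h4 : j.val = b.val <;> (try simp [h1, h2, h3, h4]) <;> omega

/-! ### frame tensors -/

def tI {n : ℕ} (v : Fin 4 → Fin n → ℝ) : Tensor4 n :=
  tsq (wedge (v 0) (v 1)) + tsq (wedge (v 2) (v 3)) + (tsq (wedge (v 0) (v 2)) + tsq (wedge (v 1) (v 3)))
    + (tsq (wedge (v 0) (v 3)) + tsq (wedge (v 1) (v 2)))

def tZ {n : ℕ} (v : Fin 4 → Fin n → ℝ) : Tensor4 n :=
  (2 : ℝ) • tsq (wedge (v 0) (v 1) + wedge (v 2) (v 3)) +
    (-1 : ℝ) • tsq (wedge (v 0) (v 2) + (-1 : ℝ) • wedge (v 1) (v 3)) +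
    (-1 : ℝ) • tsq (wedge (v 0) (v 3) + wedge (v 1) (v 2))

def tF {n : ℕ} (v : Fin 4 → Fin n → ℝ) : Tensor4 n :=
  tsq (wedge (v 0) (v 1)) + (-1 : ℝ) • tsq (wedge (v 2) (v 3))

def tD {n : ℕ} (v : Fin 4 → Fin n → ℝ) : Tensor4 n :=
  (2 : ℝ) • (tsq (wedge (v 0) (v 1)) + tsq (wedge (v 2) (v 3))) +
    (-1 : ℝ) • (tsq (wedge (v 0) (v 2)) + tsq (wedge (v 1) (v 3))) +
    (-1 : ℝ) • (tsq (wedge (v 0) (v 3)) + tsq (wedge (v 1) (v 2)))

lemma emb_I4 {n : ℕ} (hn : 4 ≤ n) : emb n I4 = tI (std hn) := by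
  simp only [I4, tI, emb_add, emb_sqZ, embM_wZ hn]

lemma emb_Z4 {n : ℕ} (hn : 4 ≤ n) : emb n Z4 = tZ (std hn) := by
  simp only [Z4, tZ, emb_add, emb_smul, emb_sqZ, embM_add, embM_smul, embM_wZ hn]
  push_cast
  rfl

lemma emb_F4 {n : ℕ} (hn : 4 ≤ n) : emb n F4 = tF (std hn) := by
  simp only [F4, tF, emb_add, emb_smul, emb_sqZ, embM_wZ hn]
  push_cast
  rfl

lemma emb_D4 {n : ℕ} (hn : 4 ≤ n) : emb n D4 = tD (std hn) := by
  simp only [D4, tD, emb_add, emb_smul, emb_sqZ, embM_wZ hn]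
  push_cast
  rfl

lemma act_tsq_wedge {n : ℕ} (g : Matrix (Fin n) (Fin n) ℝ) (x y : Fin n → ℝ) :
    act g (tsq (wedge x y)) = tsq (wedge (g.mulVec x) (g.mulVec y)) := by
  rw [act_tsq, conj_wedge]

lemma act_tZ {n : ℕ} (g : Matrix (Fin n) (Fin n) ℝ) (v w : Fin 4 → Fin n → ℝ)
    (h : ∀ a, g.mulVec (v a) = w a) : act g (tZ v) = tZ w := by
  simp only [tZ, act_add, act_smul, act_tsq, Matrix.mul_add, Matrix.add_mul, Matrix.mul_smul,
    Matrix.smul_mul, conj_wedge, h]

lemma act_tF {n : ℕ} (g : Matrix (Fin n) (Fin n) ℝ) (v w : Fin 4 → Fin n → ℝ)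
    (h : ∀ a, g.mulVec (v a) = w a) : act g (tF v) = tF w := by
  simp only [tF, act_add, act_smul, act_tsq, conj_wedge, h]

lemma tZ_mem {n : ℕ} (hn : 4 ≤ n) {C : Set (Tensor4 n)} (hC : IsCurvatureCone n C)
    (h : emb n Z4 ∈ C) (v : Fin 4 → Fin n → ℝ) (hv : IsFrame v) : tZ v ∈ C := by
  obtain ⟨g, hg, hgv⟩ := frame_exists hn v hv
  have := hC.act_mem g hg _ h
  rwa [emb_Z4 hn, act_tZ g _ v hgv] at this

lemma tF_mem {n : ℕ} (hn : 4 ≤ n) {C : Set (Tensor4 n)} (hC : IsCurvatureCone n C)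
    (h : emb n F4 ∈ C) (v : Fin 4 → Fin n → ℝ) (hv : IsFrame v) : tF v ∈ C := by
  obtain ⟨g, hg, hgv⟩ := frame_exists hn v hv
  have := hC.act_mem g hg _ h
  rwa [emb_F4 hn, act_tF g _ v hgv] at this

/-- flipping the sign of the last vector of a frame -/
lemma isFrame_flip {n : ℕ} (v : Fin 4 → Fin n → ℝ) (hv : IsFrame v) :
    IsFrame ![v 0, v 1, v 2, -v 3] := by
  intro a b
  have h := hv a b
  fin_cases a <;> fin_cases b <;> simp_all [Finset.sum_neg_distrib]

lemma isFrame_perm {n : ℕ} (v : Fin 4 → Fin n → ℝ) (hv : IsFrame v) (p : Fin 4 → Fin 4)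
    (hp : Function.Injective p) : IsFrame (fun a => v (p a)) := by
  intro a b
  rw [hv (p a) (p b)]
  simp [hp.eq_iff]

lemma tD_mem {n : ℕ} {C : Set (Tensor4 n)} (hC : IsCurvatureCone n C)
    (h : ∀ v : Fin 4 → Fin n → ℝ, IsFrame v → tZ v ∈ C) (v : Fin 4 → Fin n → ℝ) (hv : IsFrame v) :
    tD v ∈ C := by
  have h1 := hC.add_mem _ (h v hv) _ (h _ (isFrame_flip v hv))
  have h2 := hC.smul_mem (1 / 2) (by norm_num) _ h1
  have e : (1 / 2 : ℝ) • (tZ v + tZ ![v 0, v 1, v 2, -v 3]) = tD v := by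
    funext i j k l
    simp only [tZ, tD, tsq, wedge, Pi.add_apply, Pi.smul_apply, Matrix.add_apply, Matrix.of_apply,
      Matrix.smul_apply, smul_eq_mul, Matrix.cons_val_zero, Matrix.cons_val_one, Matrix.cons_val, Pi.neg_apply]
    ring
  rwa [e] at h2

lemma neg_tD_mem {n : ℕ} {C : Set (Tensor4 n)} (hC : IsCurvatureCone n C)
    (h : ∀ v : Fin 4 → Fin n → ℝ, IsFrame v → tZ v ∈ C) (v : Fin 4 → Fin n → ℝ) (hv : IsFrame v) :
    (-1 : ℝ) • tD v ∈ C := by
  have h1 := tD_mem hC h _ (isFrame_perm v hv ![0, 2, 1, 3] (by decide))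
  have h2 := tD_mem hC h _ (isFrame_perm v hv ![0, 3, 2, 1] (by decide))
  have h3 := hC.add_mem _ h1 _ h2
  have e : (tD fun a => v (![0, 2, 1, 3] a)) + (tD fun a => v (![0, 3, 2, 1] a)) = (-1 : ℝ) • tD v := by
    funext i j k l
    simp only [tD, tsq, wedge, Pi.add_apply, Pi.smul_apply, Matrix.add_apply, Matrix.of_apply,
      Matrix.smul_apply, smul_eq_mul, Matrix.cons_val_zero, Matrix.cons_val_one, Matrix.cons_val, Pi.neg_apply]
    ring
  rwa [e] at h3

lemma push_right {n : ℕ} (hn : 4 ≤ n) {C : Set (Tensor4 n)} (hC : IsCurvatureCone n C)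
    (hflow : RicciFlowInvariant n C) (hD : emb n D4 ∈ C) (hD' : (-1 : ℝ) • emb n D4 ∈ C)
    (s : ℝ) (hs : 0 < s) (h : emb n I4 + s • emb n F4 ∈ C) :
    ∃ s' > s, emb n I4 + s' • emb n F4 ∈ C := by
  set f : ℝ × ℝ × ℝ → ℝ × ℝ × ℝ := fun x =>
    (3 * x.1 ^ 2 + x.2.1 ^ 2 / 3, (2 * x.1 + 4 * x.2.2) * x.2.1, 3 * x.2.2 ^ 2 + x.2.1 ^ 2 / 3) with hf
  have hcd : ContDiffAt ℝ 1 f (1, s, 1 + s ^ 2) := by
    have : ContDiff ℝ 1 f := by
      rw [hf]; fun_prop
    exact this.contDiffAt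
  obtain ⟨α, hα0, ε, hε, hα⟩ :=
    hcd.exists_forall_mem_closedBall_exists_eq_forall_mem_Ioo_hasDerivAt₀ 0
  have hd1 : ∀ t ∈ Set.Ioo (-ε) ε, HasDerivAt (fun t => (α t).1) (f (α t)).1 t := by
    intro t ht
    have := hα t (by simpa using ht)
    exact (hasFDerivAt_fst.comp_hasDerivAt t this)
  have hd2' : ∀ t ∈ Set.Ioo (-ε) ε, HasDerivAt (fun t => (α t).2) (f (α t)).2 t := by
    intro t ht
    have := hα t (by simpa using ht)
    exact (hasFDerivAt_snd.comp_hasDerivAt t this)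
  have hd2 : ∀ t ∈ Set.Ioo (-ε) ε, HasDerivAt (fun t => (α t).2.1) (f (α t)).2.1 t := by
    intro t ht
    exact (hasFDerivAt_fst.comp_hasDerivAt t (hd2' t ht))
  have hd3 : ∀ t ∈ Set.Ioo (-ε) ε, HasDerivAt (fun t => (α t).2.2) (f (α t)).2.2 t := by
    intro t ht
    exact (hasFDerivAt_snd.comp_hasDerivAt t (hd2' t ht))
  have hDmem : ∀ c : ℝ, c • emb n D4 ∈ C := by
    intro c
    rcases le_total 0 c with hc | hc
    · exact hC.smul_mem c hc _ hD
    · have := hC.smul_mem (-c) (by linarith) _ hD'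
      have e : (-c) • (-1 : ℝ) • emb n D4 = c • emb n D4 := by module
      rwa [e] at this
  have hmem : ∀ t ∈ Set.Ico 0 ε,
      (α t).1 • emb n I4 + (α t).2.1 • emb n F4 + (α t).2.2 • emb n D4 ∈ C := by
    apply hflow ε (fun t => (α t).1 • emb n I4 + (α t).2.1 • emb n F4 + (α t).2.2 • emb n D4) hε
    · simp only [hα0]
      rw [one_smul]
      exact hC.add_mem _ h _ (hDmem _)
    · intro t _
      have h1 := curvOp_comb2 (emb_curv (n := n) _ curv_I4) (emb_curv _ curv_F4) (α t).1 (α t).2.1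
      have h2 := curvOp_comb2 h1 (emb_curv _ curv_D4) 1 (α t).2.2
      rwa [one_smul] at h2
    · intro t ht
      have ht' : t ∈ Set.Ioo (-ε) ε := ⟨by have := ht.1; linarith, ht.2⟩
      have hQ := Q_family2 hn (α t).1 (α t).2.1 (α t).2.2
      rw [hQ]
      exact ((((hd1 t ht').smul_const _).add ((hd2 t ht').smul_const _)).add
        ((hd3 t ht').smul_const _)).hasDerivWithinAt
  have hmem2 : ∀ t ∈ Set.Ico 0 ε, (α t).1 • emb n I4 + (α t).2.1 • emb n F4 ∈ C := by
    intro t ht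
    have := hC.add_mem _ (hmem t ht) _ (hDmem (-(α t).2.2))
    have e : (α t).1 • emb n I4 + (α t).2.1 • emb n F4 + (α t).2.2 • emb n D4
        + (-(α t).2.2) • emb n D4 = (α t).1 • emb n I4 + (α t).2.1 • emb n F4 := by module
    rwa [e] at this
  -- the function `σ - s α` has positive derivative at 0
  have h00 : (0 : ℝ) ∈ Set.Ioo (-ε) ε := ⟨by linarith, hε⟩
  have hder : HasDerivAt (fun t => (α t).2.1 - s * (α t).1)
      ((f (α 0)).2.1 - s * (f (α 0)).1) 0 := (hd2 0 h00).sub ((hd1 0 h00).const_mul s)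
  have hpos : 0 < (f (α 0)).2.1 - s * (f (α 0)).1 := by
    simp only [hα0, hf]
    have : (2 * 1 + 4 * (1 + s ^ 2)) * s - s * (3 * 1 ^ 2 + s ^ 2 / 3) = 3 * s + (11 / 3) * s ^ 3 := by
      ring
    rw [this]; positivity
  have hslope := hasDerivAt_iff_tendsto_slope.mp hder
  have hev : ∀ᶠ t in nhdsWithin (0 : ℝ) {0}ᶜ, 0 < slope (fun t => (α t).2.1 - s * (α t).1) 0 t :=
    hslope.eventually (lt_mem_nhds hpos)
  have hev' : ∀ᶠ t in nhdsWithin (0 : ℝ) (Set.Ioi 0), 0 < slope (fun t => (α t).2.1 - s * (α t).1) 0 t :=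
    hev.filter_mono (nhdsWithin_mono _ (by intro x hx; simp at hx ⊢; exact hx.ne'))
  have hc1 : ContinuousAt (fun t => (α t).1) 0 := (hd1 0 h00).continuousAt
  have hev2 : ∀ᶠ t in nhdsWithin (0 : ℝ) (Set.Ioi 0), 0 < (α t).1 := by
    have h1 : 0 < (fun t => (α t).1) 0 := by simp only [hα0]; norm_num
    exact (hc1.tendsto.eventually (lt_mem_nhds h1)).filter_mono nhdsWithin_le_nhds
  have hev3 : ∀ᶠ t in nhdsWithin (0 : ℝ) (Set.Ioi 0), t < ε :=
    (gt_mem_nhds hε).filter_mono nhdsWithin_le_nhds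
  obtain ⟨t, ⟨⟨ht1, ht2⟩, ht3⟩, ht4⟩ :=
    (((hev'.and hev2).and hev3).and self_mem_nhdsWithin).exists
  have ht0 : 0 < t := ht4
  rw [slope_def_field] at ht1
  simp only [sub_zero] at ht1
  have h0 : (α 0).2.1 - s * (α 0).1 = 0 := by rw [hα0]; simp
  rw [h0, sub_zero] at ht1
  have ht5 : 0 < (α t).2.1 - s * (α t).1 := by
    by_contra hcon
    push Not at hcon
    have := div_nonpos_of_nonpos_of_nonneg hcon ht0.le
    linarith
  refine ⟨(α t).2.1 / (α t).1, ?_, ?_⟩
  · rw [gt_iff_lt, lt_div_iff₀ ht2]; linarith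
  · have := hC.smul_mem ((α t).1⁻¹) (by positivity) _ (hmem2 t ⟨ht0.le, ht3⟩)
    have e : (α t).1⁻¹ • ((α t).1 • emb n I4 + (α t).2.1 • emb n F4)
        = emb n I4 + ((α t).2.1 / (α t).1) • emb n F4 := by
      rw [smul_add, smul_smul, smul_smul, inv_mul_cancel₀ ht2.ne', one_smul]
      congr 2
      field_simp
    rwa [e] at this

lemma F_mem {n : ℕ} (hn : 4 ≤ n) {C : Set (Tensor4 n)} (hC : IsCurvatureCone n C)
    (hflow : RicciFlowInvariant n C) (hD : emb n D4 ∈ C) (hD' : (-1 : ℝ) • emb n D4 ∈ C)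
    (h : emb n I4 + emb n F4 ∈ C) : emb n F4 ∈ C := by
  set S : Set ℝ := {s | 1 ≤ s ∧ emb n I4 + s • emb n F4 ∈ C} with hS
  have h1 : (1 : ℝ) ∈ S := ⟨le_rfl, by rwa [one_smul]⟩
  have hcl : IsClosed S := by
    have : S = Set.Ici 1 ∩ (fun s : ℝ => emb n I4 + s • emb n F4) ⁻¹' C := rfl
    rw [this]
    exact isClosed_Ici.inter (hC.isClosed.preimage (by fun_prop))
  have hunb : ¬ BddAbove S := by
    intro hb
    have hmem := hcl.csSup_mem ⟨1, h1⟩ hb
    obtain ⟨s', hs', hs''⟩ := push_right hn hC hflow hD hD' (sSup S)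
      (by have := hmem.1; linarith) hmem.2
    have : s' ∈ S := ⟨by have := hmem.1; linarith, hs''⟩
    have := le_csSup hb this
    linarith
  have hseq : ∀ k : ℕ, ∃ s : ℝ, (k : ℝ) < s ∧ s ∈ S := by
    intro k
    by_contra hcon
    push Not at hcon
    exact hunb ⟨k, fun s hs => by
      by_contra h2
      push Not at h2
      exact hcon s h2 hs⟩
  choose u hu1 hu2 using hseq
  have hlim : Filter.Tendsto (fun k : ℕ => (u k)⁻¹ • emb n I4 + emb n F4) Filter.atTop
      (nhds ((0 : ℝ) • emb n I4 + emb n F4)) := by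
    have h1 : Filter.Tendsto (fun k : ℕ => (u k)⁻¹) Filter.atTop (nhds 0) := by
      apply Filter.Tendsto.comp tendsto_inv_atTop_zero
      exact Filter.tendsto_atTop_mono (fun k => (hu1 k).le) tendsto_natCast_atTop_atTop
    exact (h1.smul_const _).add tendsto_const_nhds
  have hfin := hC.isClosed.mem_of_tendsto hlim (Filter.Eventually.of_forall fun k => by
    have hk := hu2 k
    have hk1 : 0 < u k := by have := hk.1; linarith
    have := hC.smul_mem ((u k)⁻¹) (by positivity) _ hk.2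
    have e : (u k)⁻¹ • (emb n I4 + u k • emb n F4) = (u k)⁻¹ • emb n I4 + emb n F4 := by
      rw [smul_add, smul_smul, inv_mul_cancel₀ hk1.ne', one_smul]
    rwa [e] at this)
  simpa using hfin

/-! ### sectional curvature of frame tensors -/

def bil {n : ℕ} (W : Matrix (Fin n) (Fin n) ℝ) (x y : Fin n → ℝ) : ℝ := ∑ i, ∑ j, W i j * x i * y j

lemma quad_tsq {n : ℕ} (W : Matrix (Fin n) (Fin n) ℝ) (x y : Fin n → ℝ) :
    quad (tsq W) x y = (bil W x y) ^ 2 := by
  simp only [quad, bil, tsq, sq]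
  rw [Finset.sum_mul_sum]
  refine Finset.sum_congr rfl fun i _ => ?_
  rw [Finset.sum_comm]
  refine Finset.sum_congr rfl fun k _ => ?_
  rw [Finset.sum_mul_sum]
  refine Finset.sum_congr rfl fun j _ => Finset.sum_congr rfl fun l _ => ?_
  ring

lemma quad_add {n : ℕ} (R S : Tensor4 n) (x y : Fin n → ℝ) :
    quad (R + S) x y = quad R x y + quad S x y := by
  simp only [quad, Pi.add_apply, add_mul, Finset.sum_add_distrib]

lemma quad_smul {n : ℕ} (c : ℝ) (R : Tensor4 n) (x y : Fin n → ℝ) :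
    quad (c • R) x y = c * quad R x y := by
  simp only [quad, Pi.smul_apply, smul_eq_mul, Finset.mul_sum]
  refine Finset.sum_congr rfl fun i _ => Finset.sum_congr rfl fun j _ =>
    Finset.sum_congr rfl fun k _ => Finset.sum_congr rfl fun l _ => ?_
  ring

lemma bil_add {n : ℕ} (W W' : Matrix (Fin n) (Fin n) ℝ) (x y : Fin n → ℝ) :
    bil (W + W') x y = bil W x y + bil W' x y := by
  simp only [bil, Matrix.add_apply, add_mul, Finset.sum_add_distrib]

lemma bil_smul {n : ℕ} (c : ℝ) (W : Matrix (Fin n) (Fin n) ℝ) (x y : Fin n → ℝ) :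
    bil (c • W) x y = c * bil W x y := by
  simp only [bil, Matrix.smul_apply, smul_eq_mul, Finset.mul_sum]
  refine Finset.sum_congr rfl fun i _ => Finset.sum_congr rfl fun j _ => ?_
  ring

def dot {n : ℕ} (x y : Fin n → ℝ) : ℝ := ∑ i, x i * y i

lemma bil_wedge {n : ℕ} (u v x y : Fin n → ℝ) :
    bil (wedge u v) x y = dot u x * dot v y - dot v x * dot u y := by
  simp only [bil, wedge, dot, Matrix.of_apply]
  rw [Finset.sum_mul_sum, Finset.sum_mul_sum, ← Finset.sum_sub_distrib]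
  refine Finset.sum_congr rfl fun i _ => ?_
  rw [← Finset.sum_sub_distrib]
  refine Finset.sum_congr rfl fun j _ => ?_
  ring

lemma quad_IZ {n : ℕ} (v : Fin 4 → Fin n → ℝ) (x y : Fin n → ℝ) :
    quad (tI v + tZ v) x y = 3 * (bil (wedge (v 0) (v 1) + wedge (v 2) (v 3)) x y) ^ 2 := by
  simp only [tI, tZ, quad_add, quad_smul, quad_tsq, bil_add, bil_smul, bil_wedge]
  ring

lemma curvOp_tsq_wedge {n : ℕ} (x y : Fin n → ℝ) : IsCurvOp (tsq (wedge x y)) := by
  refine ⟨fun i j k l => ?_, fun i j k l => ?_, fun i j k l => ?_⟩ <;>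
    simp only [tsq, wedge, Matrix.of_apply] <;> ring

lemma tsq_wedge_mem {n : ℕ} {C : Set (Tensor4 n)}
    (hsec : ∀ R : Tensor4 n, IsCurvOp R → HasNonnegSec R → R ∈ C) (x y : Fin n → ℝ) :
    tsq (wedge x y) ∈ C := by
  refine hsec _ (curvOp_tsq_wedge x y) fun u v _ _ _ => ?_
  rw [quad_tsq]; positivity

lemma IZ_mem {n : ℕ} (hn : 4 ≤ n) {C : Set (Tensor4 n)}
    (hsec : ∀ R : Tensor4 n, IsCurvOp R → HasNonnegSec R → R ∈ C) :
    emb n I4 + emb n Z4 ∈ C := by
  have h := curvOp_comb2 (emb_curv (n := n) _ curv_I4) (emb_curv _ curv_Z4) 1 1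
  rw [one_smul, one_smul] at h
  refine hsec _ h fun x y _ _ _ => ?_
  rw [emb_I4 hn, emb_Z4 hn, quad_IZ]
  positivity

lemma IF_mem {n : ℕ} (hn : 4 ≤ n) {C : Set (Tensor4 n)} (hC : IsCurvatureCone n C)
    (hsec : ∀ R : Tensor4 n, IsCurvOp R → HasNonnegSec R → R ∈ C) :
    emb n I4 + emb n F4 ∈ C := by
  rw [emb_I4 hn, emb_F4 hn]
  have e : tI (std hn) + tF (std hn) = (2 : ℝ) • tsq (wedge (std hn 0) (std hn 1)) +
    (tsq (wedge (std hn 0) (std hn 2)) + tsq (wedge (std hn 1) (std hn 3))) +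
    (tsq (wedge (std hn 0) (std hn 3)) + tsq (wedge (std hn 1) (std hn 2))) := by
    simp only [tI, tF]; module
  rw [e]
  have hw := fun x y => tsq_wedge_mem hsec x y (n := n)
  exact hC.add_mem _ (hC.add_mem _ (hC.smul_mem 2 (by norm_num) _ (hw _ _)) _
    (hC.add_mem _ (hw _ _) _ (hw _ _))) _ (hC.add_mem _ (hw _ _) _ (hw _ _))

def tG {n : ℕ} (v : Fin 4 → Fin n → ℝ) : Tensor4 n :=
  tsq (wedge (v 0) (v 1)) + (-1 : ℝ) • tsq (wedge (v 0) (v 2))

/-- main structural lemma: the cone contains `E_{x∧y} - E_{x∧z}` for orthonormal `x,y,z,w`. -/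
lemma tG_mem {n : ℕ} (hn : 4 ≤ n) {C : Set (Tensor4 n)} (hC : IsCurvatureCone n C)
    (hflow : RicciFlowInvariant n C)
    (hsec : ∀ R : Tensor4 n, IsCurvOp R → HasNonnegSec R → R ∈ C)
    (v : Fin 4 → Fin n → ℝ) (hv : IsFrame v) : tG v ∈ C := by
  have hstd : IsFrame (std hn) := by
    intro a b
    simp only [std, Pi.single_apply, ite_mul, one_mul, zero_mul, Finset.sum_ite_eq',
      Finset.mem_univ, if_true]
    simp [Fin.ext_iff]
  have hZ : ∀ v : Fin 4 → Fin n → ℝ, IsFrame v → tZ v ∈ C :=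
    tZ_mem hn hC (Z_mem hn hC hflow (IZ_mem hn hsec))
  have hD := tD_mem hC hZ
  have hD' := neg_tD_mem hC hZ
  have hF : ∀ v : Fin 4 → Fin n → ℝ, IsFrame v → tF v ∈ C := by
    apply tF_mem hn hC
    apply F_mem hn hC hflow
    · rw [emb_D4 hn]; exact hD _ hstd
    · rw [emb_D4 hn]; exact hD' _ hstd
    · exact IF_mem hn hC hsec
  have h1 := hD v hv
  have h2 := hD' _ (isFrame_perm v hv ![0, 2, 1, 3] (by decide))
  have h3 := hC.smul_mem 3 (by norm_num) _ (hF v hv)
  have h4 := hC.smul_mem 3 (by norm_num) _ (hF _ (isFrame_perm v hv ![1, 3, 0, 2] (by decide)))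
  have h5 := hC.smul_mem (1 / 6) (by norm_num) _
    (hC.add_mem _ (hC.add_mem _ h1 _ h2) _ (hC.add_mem _ h3 _ h4))
  have e : (1 / 6 : ℝ) • (tD v + (-1 : ℝ) • (tD fun a => v (![0, 2, 1, 3] a)) +
      ((3 : ℝ) • tF v + (3 : ℝ) • tF fun a => v (![1, 3, 0, 2] a))) = tG v := by
    funext i j k l
    simp only [tD, tF, tG, tsq, wedge, Pi.add_apply, Pi.smul_apply, Matrix.of_apply,
      smul_eq_mul, Matrix.cons_val_zero, Matrix.cons_val_one, Matrix.cons_val]
    ring
  rwa [e] at h5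

/-! ### linear algebra -/

def q4 {n : ℕ} (A : Tensor4 n) (x y z w : Fin n → ℝ) : ℝ :=
  ∑ i, ∑ j, ∑ k, ∑ l, A i j k l * x i * y j * z k * w l

lemma q4_lin1 {n : ℕ} (A : Tensor4 n) (a b : ℝ) (x x' y z w : Fin n → ℝ) :
    q4 A (a • x + b • x') y z w = a * q4 A x y z w + b * q4 A x' y z w := by
  simp only [q4, Finset.mul_sum, ← Finset.sum_add_distrib]
  refine Finset.sum_congr rfl fun i _ => Finset.sum_congr rfl fun j _ =>
    Finset.sum_congr rfl fun k _ => Finset.sum_congr rfl fun l _ => ?_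
  simp only [Pi.add_apply, Pi.smul_apply, smul_eq_mul]
  ring

lemma q4_lin2 {n : ℕ} (A : Tensor4 n) (a b : ℝ) (x y y' z w : Fin n → ℝ) :
    q4 A x (a • y + b • y') z w = a * q4 A x y z w + b * q4 A x y' z w := by
  simp only [q4, Finset.mul_sum, ← Finset.sum_add_distrib]
  refine Finset.sum_congr rfl fun i _ => Finset.sum_congr rfl fun j _ =>
    Finset.sum_congr rfl fun k _ => Finset.sum_congr rfl fun l _ => ?_
  simp only [Pi.add_apply, Pi.smul_apply, smul_eq_mul]
  ring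

lemma q4_lin3 {n : ℕ} (A : Tensor4 n) (a b : ℝ) (x y z z' w : Fin n → ℝ) :
    q4 A x y (a • z + b • z') w = a * q4 A x y z w + b * q4 A x y z' w := by
  simp only [q4, Finset.mul_sum, ← Finset.sum_add_distrib]
  refine Finset.sum_congr rfl fun i _ => Finset.sum_congr rfl fun j _ =>
    Finset.sum_congr rfl fun k _ => Finset.sum_congr rfl fun l _ => ?_
  simp only [Pi.add_apply, Pi.smul_apply, smul_eq_mul]
  ring

lemma q4_lin4 {n : ℕ} (A : Tensor4 n) (a b : ℝ) (x y z w w' : Fin n → ℝ) :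
    q4 A x y z (a • w + b • w') = a * q4 A x y z w + b * q4 A x y z w' := by
  simp only [q4, Finset.mul_sum, ← Finset.sum_add_distrib]
  refine Finset.sum_congr rfl fun i _ => Finset.sum_congr rfl fun j _ =>
    Finset.sum_congr rfl fun k _ => Finset.sum_congr rfl fun l _ => ?_
  simp only [Pi.add_apply, Pi.smul_apply, smul_eq_mul]
  ring

lemma q4_swap12 {n : ℕ} {A : Tensor4 n} (hA : IsCurvOp A) (x y z w : Fin n → ℝ) :
    q4 A y x z w = - q4 A x y z w := by
  simp only [q4]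
  rw [Finset.sum_comm, ← Finset.sum_neg_distrib]
  refine Finset.sum_congr rfl fun i _ => ?_
  rw [← Finset.sum_neg_distrib]
  refine Finset.sum_congr rfl fun j _ => ?_
  rw [← Finset.sum_neg_distrib]
  refine Finset.sum_congr rfl fun k _ => ?_
  rw [← Finset.sum_neg_distrib]
  refine Finset.sum_congr rfl fun l _ => ?_
  rw [hA.1 i j k l]; ring

lemma q4_pair {n : ℕ} {A : Tensor4 n} (hA : IsCurvOp A) (x y z w : Fin n → ℝ) :
    q4 A z w x y = q4 A x y z w := by
  have e : q4 A z w x y = ∑ k, ∑ l, ∑ i, ∑ j, A k l i j * z k * w l * x i * y j := rfl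
  have e2 : q4 A x y z w = ∑ k, ∑ l, ∑ i, ∑ j, A i j k l * x i * y j * z k * w l := by
    simp only [q4]
    calc ∑ i, ∑ j, ∑ k, ∑ l, A i j k l * x i * y j * z k * w l
        = ∑ i, ∑ k, ∑ j, ∑ l, A i j k l * x i * y j * z k * w l :=
          Finset.sum_congr rfl fun i _ => Finset.sum_comm
      _ = ∑ k, ∑ i, ∑ j, ∑ l, A i j k l * x i * y j * z k * w l := Finset.sum_comm
      _ = ∑ k, ∑ i, ∑ l, ∑ j, A i j k l * x i * y j * z k * w l :=
          Finset.sum_congr rfl fun k _ => Finset.sum_congr rfl fun i _ => Finset.sum_comm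
      _ = ∑ k, ∑ l, ∑ i, ∑ j, A i j k l * x i * y j * z k * w l :=
          Finset.sum_congr rfl fun k _ => Finset.sum_comm
  rw [e, e2]
  refine Finset.sum_congr rfl fun k _ => Finset.sum_congr rfl fun l _ =>
    Finset.sum_congr rfl fun i _ => Finset.sum_congr rfl fun j _ => ?_
  rw [hA.2.1 i j k l]; ring

lemma q4_swap34 {n : ℕ} {A : Tensor4 n} (hA : IsCurvOp A) (x y z w : Fin n → ℝ) :
    q4 A x y w z = - q4 A x y z w := by
  rw [← q4_pair hA, q4_swap12 hA, q4_pair hA]

def ip {n : ℕ} : Tensor4 n →ₗ[ℝ] Tensor4 n →ₗ[ℝ] ℝ :=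
  LinearMap.mk₂ ℝ (fun A R => ∑ i, ∑ j, ∑ k, ∑ l, A i j k l * R i j k l)
    (fun A A' R => by simp only [Pi.add_apply, add_mul, Finset.sum_add_distrib])
    (fun c A R => by
      simp only [Pi.smul_apply, smul_eq_mul, Finset.mul_sum, mul_assoc])
    (fun A R R' => by simp only [Pi.add_apply, mul_add, Finset.sum_add_distrib])
    (fun c A R => by
      simp only [Pi.smul_apply, smul_eq_mul, Finset.mul_sum]
      refine Finset.sum_congr rfl fun i _ => Finset.sum_congr rfl fun j _ =>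
        Finset.sum_congr rfl fun k _ => Finset.sum_congr rfl fun l _ => ?_
      ring)

lemma ip_apply {n : ℕ} (A R : Tensor4 n) : ip A R = ∑ i, ∑ j, ∑ k, ∑ l, A i j k l * R i j k l := rfl

lemma ip_tsq {n : ℕ} {A : Tensor4 n} (hA : IsCurvOp A) (x y : Fin n → ℝ) :
    ip A (tsq (wedge x y)) = 4 * q4 A x y x y := by
  have e : ip A (tsq (wedge x y)) = q4 A x y x y - q4 A x y y x - q4 A y x x y + q4 A y x y x := by
    simp only [ip_apply, q4, tsq, wedge, Matrix.of_apply, ← Finset.sum_sub_distrib,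
      ← Finset.sum_add_distrib]
    refine Finset.sum_congr rfl fun i _ => Finset.sum_congr rfl fun j _ =>
      Finset.sum_congr rfl fun k _ => Finset.sum_congr rfl fun l _ => ?_
    ring
  rw [e, q4_swap34 hA x y x y, q4_swap12 hA x y x y, q4_swap12 hA x y y x, q4_swap34 hA x y x y]
  ring

lemma isFrame_rot12 {n : ℕ} (v : Fin 4 → Fin n → ℝ) (hv : IsFrame v) :
    IsFrame ![v 0, (3 / 5 : ℝ) • v 1 + (4 / 5 : ℝ) • v 2, (4 / 5 : ℝ) • v 1 + (-3 / 5 : ℝ) • v 2, v 3] := by
  have hd : ∀ a b : Fin 4, dot (v a) (v b) = if a = b then 1 else 0 := hv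
  have lin1 : ∀ (a b : ℝ) (x y z : Fin n → ℝ), dot (a • x + b • y) z = a * dot x z + b * dot y z := by
    intro a b x y z
    simp only [dot, Pi.add_apply, Pi.smul_apply, smul_eq_mul, Finset.mul_sum, ← Finset.sum_add_distrib]
    exact Finset.sum_congr rfl fun i _ => by ring
  have lin2 : ∀ (a b : ℝ) (x y z : Fin n → ℝ), dot z (a • x + b • y) = a * dot z x + b * dot z y := by
    intro a b x y z
    simp only [dot, Pi.add_apply, Pi.smul_apply, smul_eq_mul, Finset.mul_sum, ← Finset.sum_add_distrib]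
    exact Finset.sum_congr rfl fun i _ => by ring
  intro a b
  change dot _ _ = _
  fin_cases a <;> fin_cases b <;>
    simp [lin1, lin2, hd] <;> norm_num

lemma isFrame_rot03 {n : ℕ} (v : Fin 4 → Fin n → ℝ) (hv : IsFrame v) :
    IsFrame ![(3 / 5 : ℝ) • v 0 + (4 / 5 : ℝ) • v 3, v 1, v 2, (4 / 5 : ℝ) • v 0 + (-3 / 5 : ℝ) • v 3] := by
  have h1 := isFrame_perm v hv ![1, 0, 3, 2] (by decide)
  have h2 := isFrame_rot12 _ h1
  have h3 := isFrame_perm _ h2 ![1, 0, 3, 2] (by decide)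
  convert h3 using 1
  funext a
  fin_cases a <;> simp

lemma exists_fourth {n : ℕ} (hn : 4 ≤ n) (i j k : Fin n) : ∃ l, l ≠ i ∧ l ≠ j ∧ l ≠ k := by
  have h : ({i, j, k} : Finset (Fin n)).card < (Finset.univ : Finset (Fin n)).card := by
    have := Finset.card_le_three (a := i) (b := j) (c := k)
    simp only [Finset.card_univ, Fintype.card_fin]
    omega
  obtain ⟨l, _, hl⟩ := Finset.exists_mem_notMem_of_card_lt_card h
  simp only [Finset.mem_insert, Finset.mem_singleton, not_or] at hl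
  exact ⟨l, hl⟩

lemma q4_single {n : ℕ} (A : Tensor4 n) (i j k l : Fin n) :
    q4 A (Pi.single i 1) (Pi.single j 1) (Pi.single k 1) (Pi.single l 1) = A i j k l := by
  simp [q4, Pi.single_apply]

lemma isFrame_single {n : ℕ} (i j k l : Fin n) (hij : i ≠ j) (hik : i ≠ k) (hil : i ≠ l)
    (hjk : j ≠ k) (hjl : j ≠ l) (hkl : k ≠ l) :
    IsFrame ![(Pi.single i 1 : Fin n → ℝ), Pi.single j 1, Pi.single k 1, Pi.single l 1] := by
  intro a b
  fin_cases a <;> fin_cases b <;>
    simp [Pi.single_apply, hij, hik, hil, hjk, hjl, hkl, hij.symm, hik.symm, hil.symm, hjk.symm, hjl.symm, hkl.symm]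

lemma orth_zero {n : ℕ} (hn : 4 ≤ n) {A : Tensor4 n} (hA : IsCurvOp A)
    (h : ∀ v : Fin 4 → Fin n → ℝ, IsFrame v → ip A (tG v) = 0) :
    ∃ c : ℝ, A = c • idOp n := by
  have H : ∀ v : Fin 4 → Fin n → ℝ, IsFrame v → q4 A (v 0) (v 1) (v 0) (v 1) = q4 A (v 0) (v 2) (v 0) (v 2) := by
    intro v hv
    have := h v hv
    simp only [tG, map_add, map_smul, ip_tsq hA, smul_eq_mul] at this
    linarith
  have c1 : ∀ v : Fin 4 → Fin n → ℝ, IsFrame v → q4 A (v 0) (v 1) (v 0) (v 2) = 0 := by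
    intro v hv
    have h0 := H v hv
    have h1 := H _ (isFrame_rot12 v hv)
    simp only [Matrix.cons_val_zero, Matrix.cons_val_one, Matrix.cons_val, q4_lin2, q4_lin4] at h1
    have h2 := q4_pair hA (v 0) (v 1) (v 0) (v 2)
    rw [h2] at h1
    linarith
  have c2 : ∀ v : Fin 4 → Fin n → ℝ, IsFrame v →
      q4 A (v 0) (v 1) (v 3) (v 2) + q4 A (v 3) (v 1) (v 0) (v 2) = 0 := by
    intro v hv
    have h0 := c1 v hv
    have h1 := c1 _ (isFrame_rot03 v hv)
    have h2 := c1 _ (isFrame_perm v hv ![3, 1, 2, 0] (by decide))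
    simp only [Matrix.cons_val_zero, Matrix.cons_val_one, Matrix.cons_val, q4_lin1, q4_lin3] at h1 h2
    rw [h0, h2] at h1
    linarith
  have d1 : ∀ i j k : Fin n, i ≠ j → i ≠ k → j ≠ k → A i j i k = 0 := by
    intro i j k hij hik hjk
    obtain ⟨l, hli, hlj, hlk⟩ := exists_fourth hn i j k
    have := c1 _ (isFrame_single i j k l hij hik hli.symm hjk hlj.symm hlk.symm)
    simpa [q4_single] using this
  have d0 : ∀ i j k : Fin n, i ≠ j → i ≠ k → A i j i j = A i k i k := by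
    intro i j k hij hik
    by_cases hjk : j = k
    · rw [hjk]
    obtain ⟨l, hli, hlj, hlk⟩ := exists_fourth hn i j k
    have := H _ (isFrame_single i j k l hij hik hli.symm hjk hlj.symm hlk.symm)
    simpa [q4_single] using this
  have d2 : ∀ i j k l : Fin n, i ≠ j → i ≠ k → i ≠ l → j ≠ k → j ≠ l → k ≠ l →
      A i j k l = - A k j i l := by
    intro i j k l hij hik hil hjk hjl hkl
    have := c2 _ (isFrame_single i j l k hij hil hik hjl hjk hkl.symm)
    simp [q4_single] at this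
    linarith
  obtain ⟨a1, a2, a3⟩ := hA
  have a4 : ∀ i j k l, A i j l k = - A i j k l := by
    intro i j k l
    rw [← a2, a1, a2]
  have d3 : ∀ i j k l : Fin n, i ≠ j → i ≠ k → i ≠ l → j ≠ k → j ≠ l → k ≠ l →
      A i j k l = 0 := by
    intro i j k l hij hik hil hjk hjl hkl
    have b := a3 i j k l
    have e1 : A j k i l = - A i k j l := d2 j k i l hjk hij.symm hjl hik.symm hkl hil
    have e2 : A i k j l = - A k i j l := a1 k i j l
    have e3 : A k i j l = - A j i k l := d2 k i j l hik.symm hjk.symm hkl hij hil hjl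
    have e4 : A j i k l = - A i j k l := a1 i j k l
    linarith
  have z1 : ∀ i k l, A i i k l = 0 := by
    intro i k l
    have := a1 i i k l
    linarith
  have z2 : ∀ i j k, A i j k k = 0 := by
    intro i j k
    have := a4 i j k k
    linarith
  set o : Fin n := ⟨0, by omega⟩ with ho
  set e : Fin n := ⟨1, by omega⟩ with he
  have hoe : o ≠ e := by simp [ho, he, Fin.ext_iff]
  have sym : ∀ i j, A i j i j = A j i j i := by
    intro i j
    rw [a1 j i i j, a4 j i j i]; ring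
  have kc : ∀ i j, i ≠ j → A i j i j = A o e o e := by
    intro i j hij
    by_cases hi : i = o
    · subst hi
      exact d0 _ _ _ hij hoe
    · rw [d0 i j o hij hi, sym i o]
      exact d0 _ _ _ (Ne.symm hi) hoe
  refine ⟨A o e o e, ?_⟩
  funext i j k l
  simp only [Pi.smul_apply, smul_eq_mul, idOp]
  by_cases hij : i = j
  · subst hij
    rw [z1]
    by_cases h1 : i = k <;> by_cases h2 : i = l <;> simp [h1, h2]
  by_cases hkl : k = l
  · subst hkl
    rw [z2]
    by_cases h1 : i = k <;> by_cases h2 : j = k <;> simp [h1, h2]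
  by_cases hik : i = k
  · subst hik
    by_cases hjl : j = l
    · subst hjl
      rw [kc i j hij]
      simp [hij]
    · rw [d1 i j l hij hkl hjl]
      simp [hjl, Ne.symm hij]
  by_cases hil : i = l
  · subst hil
    by_cases hjk : j = k
    · subst hjk
      rw [a4 i j i j, kc i j hij]
      simp [hij]
    · rw [a4 i j i k, d1 i j k hij hik hjk]
      simp [hjk, hik]
  by_cases hjk : j = k
  · subst hjk
    have : A i j j l = - A j i j l := a1 j i j l
    rw [this, d1 j i l (Ne.symm hij) hkl hil]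
    simp [hik, hil]
  by_cases hjl : j = l
  · subst hjl
    rw [a4 i j j k, a1 j i j k, d1 j i k (Ne.symm hij) (Ne.symm hkl) hik]
    simp [hik, hij]
  rw [d3 i j k l hij hik hil hjk hjl hkl]
  simp [hik, hil]

/-- curvature operators as a submodule -/
def curvSub (n : ℕ) : Submodule ℝ (Tensor4 n) where
  carrier := {R | IsCurvOp R}
  add_mem' := by
    intro R S hR hS
    have := curvOp_comb2 hR hS 1 1
    rwa [one_smul, one_smul] at this
  zero_mem' := by
    refine ⟨fun i j k l => ?_, fun i j k l => ?_, fun i j k l => ?_⟩ <;> simp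
  smul_mem' := by
    intro c R hR
    have := curvOp_comb2 hR hR c 0
    rwa [zero_smul, add_zero] at this

lemma idOp_curv (n : ℕ) : IsCurvOp (idOp n) := by
  refine ⟨fun i j k l => ?_, fun i j k l => ?_, fun i j k l => ?_⟩
  · simp only [idOp]
    have e1 : (j = k ∧ i = l) ↔ (i = l ∧ j = k) := and_comm
    have e2 : (j = l ∧ i = k) ↔ (i = k ∧ j = l) := and_comm
    simp only [e1, e2]
    ring
  · simp only [idOp]
    have e1 : (k = i ∧ l = j) ↔ (i = k ∧ j = l) := by
      constructor <;> rintro ⟨rfl, rfl⟩ <;> exact ⟨rfl, rfl⟩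
    have e2 : (k = j ∧ l = i) ↔ (i = l ∧ j = k) := by
      constructor <;> rintro ⟨rfl, rfl⟩ <;> exact ⟨rfl, rfl⟩
    simp only [e1, e2]
  · simp only [idOp]
    by_cases h1 : i = k <;> by_cases h2 : i = l <;> by_cases h3 : j = k <;> by_cases h4 : j = l <;>
      by_cases h5 : i = j <;> by_cases h6 : k = l <;> simp_all [eq_comm]

def scalL (n : ℕ) : Tensor4 n →ₗ[ℝ] ℝ where
  toFun := scal
  map_add' := by intro R S; simp [scal, Finset.sum_add_distrib]
  map_smul' := by intro c R; simp [scal, Finset.mul_sum]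

lemma scal_idOp (n : ℕ) : scal (idOp n) = n * (n - 1) := by
  have : ∀ i : Fin n, ∑ j : Fin n, idOp n i j i j = n - 1 := by
    intro i
    have e : ∀ j : Fin n, (if i = j ∧ j = i then (1 : ℝ) else 0) = if i = j then 1 else 0 := by
      intro j
      by_cases h : i = j <;> simp [h]
    simp [idOp, e, Finset.sum_sub_distrib]
  simp only [scal, this]
  simp
  ring

lemma scal_tsq_wedge {n : ℕ} (x y : Fin n → ℝ) :
    scal (tsq (wedge x y)) = 2 * (dot x x * dot y y - dot x y * dot x y) := by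
  simp only [scal, tsq, wedge, dot, Matrix.of_apply]
  rw [Finset.sum_mul_sum, Finset.sum_mul_sum, ← Finset.sum_sub_distrib, Finset.mul_sum]
  have : ∀ i j : Fin n, (x i * y j - x j * y i) * (x i * y j - x j * y i) =
      (x i * x i * (y j * y j) + y i * y i * (x j * x j)) - 2 * (x i * y i * (x j * y j)) := by
    intro i j; ring
  simp only [this, Finset.sum_sub_distrib, Finset.sum_add_distrib, mul_sub]
  have h2 : ∑ i, ∑ j, y i * y i * (x j * x j) = ∑ i, ∑ j, x i * x i * (y j * y j) := by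
    rw [Finset.sum_comm]
    exact Finset.sum_congr rfl fun i _ => Finset.sum_congr rfl fun j _ => by ring
  rw [h2]
  simp only [← Finset.mul_sum]
  ring

lemma decomp {n : ℕ} (hn : 4 ≤ n) (R : Tensor4 n) (hR : IsCurvOp R) :
    ∃ c : ℝ, ∃ S ∈ Submodule.span ℝ {T : Tensor4 n | ∃ v : Fin 4 → Fin n → ℝ, IsFrame v ∧ T = tG v},
      R = c • idOp n + S := by
  classical
  set G : Set (Tensor4 n) := {T : Tensor4 n | ∃ v : Fin 4 → Fin n → ℝ, IsFrame v ∧ T = tG v} with hG
  set U : Submodule ℝ (Tensor4 n) := Submodule.span ℝ {idOp n} ⊔ Submodule.span ℝ G with hU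
  have hGV : Submodule.span ℝ G ≤ curvSub n := by
    rw [Submodule.span_le]
    rintro T ⟨v, _, rfl⟩
    have := curvOp_comb2 (curvOp_tsq_wedge (v 0) (v 1)) (curvOp_tsq_wedge (v 0) (v 2)) 1 (-1)
    rw [one_smul] at this
    exact this
  have hIV : Submodule.span ℝ {idOp n} ≤ curvSub n := by
    rw [Submodule.span_le]
    rintro T hT
    rw [Set.mem_singleton_iff] at hT
    rw [hT]
    exact idOp_curv n
  have hUV : U ≤ curvSub n := sup_le hIV hGV
  have hEq : U = curvSub n := by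
    by_contra hne
    have hlt : U < curvSub n := lt_of_le_of_ne hUV hne
    have hfr := Submodule.finrank_lt_finrank_of_lt hlt
    set φ : (curvSub n) →ₗ[ℝ] (U →ₗ[ℝ] ℝ) := (ip (n := n)).compl₁₂ (curvSub n).subtype U.subtype with hφ
    have hker : φ.ker ≠ ⊥ := by
      apply LinearMap.ker_ne_bot_of_finrank_lt
      have : Module.finrank ℝ (U →ₗ[ℝ] ℝ) = Module.finrank ℝ U := Subspace.dual_finrank_eq
      rw [this]; exact hfr
    obtain ⟨A, hA1, hA2⟩ := (Submodule.ne_bot_iff _).mp hker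
    have hA3 : ∀ u ∈ U, ip (A : Tensor4 n) u = 0 := by
      intro u hu
      have h0 : φ A = 0 := hA1
      have := congrArg (fun f : U →ₗ[ℝ] ℝ => f ⟨u, hu⟩) h0
      simpa [hφ] using this
    have hAc : IsCurvOp (A : Tensor4 n) := A.2
    obtain ⟨c, hc⟩ := orth_zero hn hAc (fun v hv =>
      hA3 _ (Submodule.mem_sup_right (Submodule.subset_span ⟨v, hv, rfl⟩)))
    have hI := hA3 (idOp n) (Submodule.mem_sup_left (Submodule.subset_span rfl))
    rw [hc, map_smul, LinearMap.smul_apply, smul_eq_mul] at hI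
    have hpos : 0 < ip (idOp n) (idOp n) := by
      rw [ip_apply]
      have hnn : ∀ i j k l : Fin n, 0 ≤ idOp n i j k l * idOp n i j k l := fun i j k l => mul_self_nonneg _
      set o : Fin n := ⟨0, by omega⟩ with ho
      set e : Fin n := ⟨1, by omega⟩ with he
      have hoe : o ≠ e := by simp [ho, he, Fin.ext_iff]
      have h1 : idOp n o e o e * idOp n o e o e = 1 := by
        simp [idOp, hoe]
      calc (0 : ℝ) < 1 := one_pos
        _ = idOp n o e o e * idOp n o e o e := h1.symm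
        _ ≤ ∑ l, idOp n o e o l * idOp n o e o l :=
          Finset.single_le_sum (f := fun l => idOp n o e o l * idOp n o e o l)
            (fun l _ => hnn _ _ _ _) (Finset.mem_univ e)
        _ ≤ ∑ k, ∑ l, idOp n o e k l * idOp n o e k l :=
          Finset.single_le_sum (f := fun k => ∑ l, idOp n o e k l * idOp n o e k l)
            (fun k _ => Finset.sum_nonneg fun l _ => hnn _ _ _ _) (Finset.mem_univ o)
        _ ≤ ∑ j, ∑ k, ∑ l, idOp n o j k l * idOp n o j k l :=
          Finset.single_le_sum (f := fun j => ∑ k, ∑ l, idOp n o j k l * idOp n o j k l)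
            (fun j _ => Finset.sum_nonneg fun k _ => Finset.sum_nonneg fun l _ => hnn _ _ _ _)
            (Finset.mem_univ e)
        _ ≤ ∑ i, ∑ j, ∑ k, ∑ l, idOp n i j k l * idOp n i j k l :=
          Finset.single_le_sum (f := fun i => ∑ j, ∑ k, ∑ l, idOp n i j k l * idOp n i j k l)
            (fun i _ => Finset.sum_nonneg fun j _ => Finset.sum_nonneg fun k _ =>
              Finset.sum_nonneg fun l _ => hnn _ _ _ _) (Finset.mem_univ o)
    have hc0 : c = 0 := by
      rcases mul_eq_zero.mp hI with h | h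
      · exact h
      · exact absurd h hpos.ne'
    apply hA2
    ext1
    rw [hc, hc0]; simp
  have hRU : R ∈ U := by rw [hEq]; exact hR
  rw [hU, Submodule.mem_sup] at hRU
  obtain ⟨y, hy, z, hz, hyz⟩ := hRU
  obtain ⟨c, hc⟩ := Submodule.mem_span_singleton.mp hy
  exact ⟨c, z, hz, by rw [hc, hyz]⟩

theorem main_forward {n : ℕ} (hn : 4 ≤ n) {C : Set (Tensor4 n)} (hC : IsCurvatureCone n C)
    (hflow : RicciFlowInvariant n C)
    (hsec : ∀ R : Tensor4 n, IsCurvOp R → HasNonnegSec R → R ∈ C) :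
    C = {R | IsCurvOp R ∧ 0 ≤ scal R} := by
  set G : Set (Tensor4 n) := {T : Tensor4 n | ∃ v : Fin 4 → Fin n → ℝ, IsFrame v ∧ T = tG v} with hG
  have hI : idOp n ∈ C := by
    obtain ⟨ε, hε, h⟩ := hC.idOp_interior
    exact h _ (idOp_curv n) (by intro i j k l; simpa using hε)
  have hzero : (0 : Tensor4 n) ∈ C := by
    have := hC.smul_mem 0 le_rfl _ hI
    rwa [zero_smul] at this
  have hGneg : ∀ T ∈ G, T ∈ C ∧ (-1 : ℝ) • T ∈ C := by
    rintro T ⟨v, hv, rfl⟩
    refine ⟨tG_mem hn hC hflow hsec v hv, ?_⟩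
    have h1 := tG_mem hn hC hflow hsec _ (isFrame_perm v hv ![0, 2, 1, 3] (by decide))
    have e : (tG fun a => v (![0, 2, 1, 3] a)) = (-1 : ℝ) • tG v := by
      simp only [tG, Matrix.cons_val_zero, Matrix.cons_val_one, Matrix.cons_val]
      module
    rwa [e] at h1
  have hspan : ∀ S ∈ Submodule.span ℝ G, S ∈ C ∧ (-1 : ℝ) • S ∈ C := by
    intro S hS
    induction hS using Submodule.span_induction with
    | mem x hx => exact hGneg x hx
    | zero => exact ⟨hzero, by simpa using hzero⟩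
    | add x y _ _ hx hy =>
      refine ⟨hC.add_mem _ hx.1 _ hy.1, ?_⟩
      rw [smul_add]
      exact hC.add_mem _ hx.2 _ hy.2
    | smul a x _ hx =>
      rcases le_total 0 a with ha | ha
      · refine ⟨hC.smul_mem a ha _ hx.1, ?_⟩
        rw [smul_comm]
        exact hC.smul_mem a ha _ hx.2
      · refine ⟨?_, ?_⟩
        · have := hC.smul_mem (-a) (by linarith) _ hx.2
          have e : (-a) • (-1 : ℝ) • x = a • x := by module
          rwa [e] at this
        · have := hC.smul_mem (-a) (by linarith) _ hx.1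
          have e : (-a) • x = (-1 : ℝ) • a • x := by module
          rwa [e] at this
  have hscal : ∀ S ∈ Submodule.span ℝ G, scal S = 0 := by
    intro S hS
    have : Submodule.span ℝ G ≤ (scalL n).ker := by
      rw [Submodule.span_le]
      rintro T ⟨v, hv, rfl⟩
      simp only [SetLike.mem_coe, LinearMap.mem_ker]
      have hd : ∀ a b : Fin 4, dot (v a) (v b) = if a = b then 1 else 0 := hv
      have h1 : ∀ a b : Fin 4, a ≠ b → scalL n (tsq (wedge (v a) (v b))) = 2 := by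
        intro a b hab
        have : scalL n (tsq (wedge (v a) (v b))) = scal (tsq (wedge (v a) (v b))) := rfl
        rw [this, scal_tsq_wedge, hd, hd, hd]
        simp [hab]
      rw [tG, map_add, map_smul, h1 0 1 (by decide), h1 0 2 (by decide)]
      norm_num
    exact this hS
  have hnpos : (0 : ℝ) < n * (n - 1) := by
    have : (4 : ℝ) ≤ n := by exact_mod_cast hn
    nlinarith
  ext R
  rw [Set.mem_ofPred_eq]
  constructor
  · intro hR
    refine ⟨hC.subset R hR, ?_⟩
    by_contra hneg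
    push Not at hneg
    obtain ⟨c, S, hS, hRS⟩ := decomp hn R (hC.subset R hR)
    have hsc : scal R = c * (n * (n - 1)) := by
      have : scalL n R = c * (n * (n - 1)) := by
        rw [hRS, map_add, map_smul]
        have h1 : scalL n S = 0 := hscal S hS
        have h2 : scalL n (idOp n) = n * (n - 1) := scal_idOp n
        rw [h1, h2]; simp
      exact this
    have hcneg : c < 0 := by
      rw [hsc] at hneg
      by_contra h
      push Not at h
      have := mul_nonneg h hnpos.le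
      linarith
    -- then `-I ∈ C`
    have h1 := hC.add_mem _ hR _ (hspan S hS).2
    have e1 : R + (-1 : ℝ) • S = c • idOp n := by rw [hRS]; module
    rw [e1] at h1
    have h2 := hC.smul_mem ((-c)⁻¹) (by rw [inv_nonneg]; linarith) _ h1
    have e2 : (-c)⁻¹ • c • idOp n = (-1 : ℝ) • idOp n := by
      rw [smul_smul, inv_neg, neg_mul, inv_mul_cancel₀ hcneg.ne]
    rw [e2] at h2
    obtain ⟨X, hX, hXC⟩ := hC.ne_whole
    apply hXC
    obtain ⟨ε, hε, hball⟩ := hC.idOp_interior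
    -- bound on the entries of X
    obtain ⟨M, hM⟩ : ∃ M : ℝ, ∀ i j k l, |X i j k l| ≤ M := by
      refine ⟨∑ i, ∑ j, ∑ k, ∑ l, |X i j k l|, fun i j k l => ?_⟩
      calc |X i j k l| ≤ ∑ l, |X i j k l| :=
            Finset.single_le_sum (f := fun l => |X i j k l|) (fun l _ => abs_nonneg _) (Finset.mem_univ l)
        _ ≤ ∑ k, ∑ l, |X i j k l| :=
            Finset.single_le_sum (f := fun k => ∑ l, |X i j k l|)
              (fun k _ => Finset.sum_nonneg fun l _ => abs_nonneg _) (Finset.mem_univ k)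
        _ ≤ ∑ j, ∑ k, ∑ l, |X i j k l| :=
            Finset.single_le_sum (f := fun j => ∑ k, ∑ l, |X i j k l|)
              (fun j _ => Finset.sum_nonneg fun k _ => Finset.sum_nonneg fun l _ => abs_nonneg _)
              (Finset.mem_univ j)
        _ ≤ ∑ i, ∑ j, ∑ k, ∑ l, |X i j k l| :=
            Finset.single_le_sum (f := fun i => ∑ j, ∑ k, ∑ l, |X i j k l|)
              (fun i _ => Finset.sum_nonneg fun j _ => Finset.sum_nonneg fun k _ =>
                Finset.sum_nonneg fun l _ => abs_nonneg _) (Finset.mem_univ i)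
    set o : Fin n := ⟨0, by omega⟩ with ho
    have hM0 : 0 ≤ M := le_trans (abs_nonneg _) (hM o o o o)
    set δ : ℝ := ε / (2 * (M + 1)) with hδ
    have hδ0 : 0 < δ := by positivity
    have h3 : idOp n + δ • X ∈ C := by
      have hc := curvOp_comb2 (idOp_curv n) hX 1 δ
      rw [one_smul] at hc
      refine hball _ hc fun i j k l => ?_
      simp only [Pi.add_apply, Pi.smul_apply, smul_eq_mul, add_sub_cancel_left]
      rw [abs_mul, abs_of_pos hδ0]
      calc δ * |X i j k l| ≤ δ * M := mul_le_mul_of_nonneg_left (hM i j k l) hδ0.le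
        _ < δ * (2 * (M + 1)) := by
          apply mul_lt_mul_of_pos_left _ hδ0
          linarith
        _ = ε := by rw [hδ]; field_simp
    have h4 := hC.add_mem _ h3 _ h2
    have h5 := hC.smul_mem (δ⁻¹) (by positivity) _ h4
    have e3 : δ⁻¹ • (idOp n + δ • X + (-1 : ℝ) • idOp n) = X := by
      have : idOp n + δ • X + (-1 : ℝ) • idOp n = δ • X := by module
      rw [this, smul_smul, inv_mul_cancel₀ hδ0.ne', one_smul]
    rwa [e3] at h5
  · rintro ⟨hR, hs⟩
    obtain ⟨c, S, hS, hRS⟩ := decomp hn R hR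
    have hsc : scal R = c * (n * (n - 1)) := by
      have : scalL n R = c * (n * (n - 1)) := by
        rw [hRS, map_add, map_smul]
        have h1 : scalL n S = 0 := hscal S hS
        have h2 : scalL n (idOp n) = n * (n - 1) := scal_idOp n
        rw [h1, h2]; simp
      exact this
    have hc : 0 ≤ c := by
      rw [hsc] at hs
      exact nonneg_of_mul_nonneg_left hs hnpos
    rw [hRS]
    exact hC.add_mem _ (hC.smul_mem c hc _ hI) _ (hspan S hS).1

lemma act_eq_q4 {n : ℕ} (g : Matrix (Fin n) (Fin n) ℝ) (R : Tensor4 n) (i j k l : Fin n) :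
    act g R i j k l = q4 R (g i) (g j) (g k) (g l) := by
  simp only [act, q4]
  refine Finset.sum_congr rfl fun a _ => Finset.sum_congr rfl fun b _ =>
    Finset.sum_congr rfl fun c _ => Finset.sum_congr rfl fun d _ => ?_
  ring

lemma q4_bianchi {n : ℕ} {A : Tensor4 n} (hA : IsCurvOp A) (x y z w : Fin n → ℝ) :
    q4 A x y z w + q4 A y z x w + q4 A z x y w = 0 := by
  have e2 : q4 A y z x w = ∑ i, ∑ j, ∑ k, ∑ l, A j k i l * x i * y j * z k * w l := by
    simp only [q4]
    calc ∑ j, ∑ k, ∑ i, ∑ l, A j k i l * y j * z k * x i * w l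
        = ∑ j, ∑ i, ∑ k, ∑ l, A j k i l * y j * z k * x i * w l :=
          Finset.sum_congr rfl fun j _ => Finset.sum_comm
      _ = ∑ i, ∑ j, ∑ k, ∑ l, A j k i l * y j * z k * x i * w l := Finset.sum_comm
      _ = _ := Finset.sum_congr rfl fun i _ => Finset.sum_congr rfl fun j _ =>
          Finset.sum_congr rfl fun k _ => Finset.sum_congr rfl fun l _ => by ring
  have e3 : q4 A z x y w = ∑ i, ∑ j, ∑ k, ∑ l, A k i j l * x i * y j * z k * w l := by
    simp only [q4]
    calc ∑ k, ∑ i, ∑ j, ∑ l, A k i j l * z k * x i * y j * w l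
        = ∑ i, ∑ k, ∑ j, ∑ l, A k i j l * z k * x i * y j * w l := Finset.sum_comm
      _ = ∑ i, ∑ j, ∑ k, ∑ l, A k i j l * z k * x i * y j * w l :=
          Finset.sum_congr rfl fun i _ => Finset.sum_comm
      _ = _ := Finset.sum_congr rfl fun i _ => Finset.sum_congr rfl fun j _ =>
          Finset.sum_congr rfl fun k _ => Finset.sum_congr rfl fun l _ => by ring
  rw [e2, e3]
  simp only [q4, ← Finset.sum_add_distrib]
  refine Finset.sum_eq_zero fun i _ => Finset.sum_eq_zero fun j _ =>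
    Finset.sum_eq_zero fun k _ => Finset.sum_eq_zero fun l _ => ?_
  linear_combination (x i * y j * z k * w l) * hA.2.2 i j k l

lemma act_curv {n : ℕ} (g : Matrix (Fin n) (Fin n) ℝ) {R : Tensor4 n} (hR : IsCurvOp R) :
    IsCurvOp (act g R) := by
  refine ⟨fun i j k l => ?_, fun i j k l => ?_, fun i j k l => ?_⟩
  · rw [act_eq_q4, act_eq_q4, q4_swap12 hR]
  · rw [act_eq_q4, act_eq_q4, q4_pair hR]
  · rw [act_eq_q4, act_eq_q4, act_eq_q4, q4_bianchi hR]

lemma scal_act {n : ℕ} {g : Matrix (Fin n) (Fin n) ℝ} (hg : g ∈ Matrix.orthogonalGroup (Fin n) ℝ)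
    (R : Tensor4 n) : scal (act g R) = scal R := by
  have hgg : ∀ a c, ∑ i, g i a * g i c = if a = c then 1 else 0 := by
    intro a c
    have h := (Matrix.mem_orthogonalGroup_iff' (Fin n) ℝ).mp hg
    have h2 := congrFun (congrFun h a) c
    simp only [Matrix.mul_apply, Matrix.star_apply, star_trivial, Matrix.one_apply] at h2
    exact h2
  simp only [scal, act]
  calc ∑ i, ∑ j, ∑ a, ∑ b, ∑ c, ∑ d, g i a * g j b * g i c * g j d * R a b c d
      = ∑ a, ∑ b, ∑ c, ∑ d, ∑ i, ∑ j, g i a * g j b * g i c * g j d * R a b c d := by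
        have s1 : ∀ i : Fin n, ∑ j, ∑ a, ∑ b, ∑ c, ∑ d, g i a * g j b * g i c * g j d * R a b c d
            = ∑ a, ∑ b, ∑ c, ∑ d, ∑ j, g i a * g j b * g i c * g j d * R a b c d := by
          intro i
          rw [Finset.sum_comm]
          refine Finset.sum_congr rfl fun a _ => ?_
          rw [Finset.sum_comm]
          refine Finset.sum_congr rfl fun b _ => ?_
          rw [Finset.sum_comm]
          refine Finset.sum_congr rfl fun c _ => ?_
          rw [Finset.sum_comm]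
        rw [Finset.sum_congr rfl fun i _ => s1 i]
        rw [Finset.sum_comm]
        refine Finset.sum_congr rfl fun a _ => ?_
        rw [Finset.sum_comm]
        refine Finset.sum_congr rfl fun b _ => ?_
        rw [Finset.sum_comm]
        refine Finset.sum_congr rfl fun c _ => ?_
        rw [Finset.sum_comm]
    _ = ∑ a, ∑ b, ∑ c, ∑ d, (if a = c then 1 else 0) * (if b = d then 1 else 0) * R a b c d := by
        refine Finset.sum_congr rfl fun a _ => Finset.sum_congr rfl fun b _ =>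
          Finset.sum_congr rfl fun c _ => Finset.sum_congr rfl fun d _ => ?_
        rw [← hgg a c, ← hgg b d, Finset.sum_mul_sum, Finset.sum_mul]
        refine Finset.sum_congr rfl fun i _ => ?_
        rw [Finset.sum_mul]
        refine Finset.sum_congr rfl fun j _ => ?_
        ring
    _ = ∑ a, ∑ b, R a b a b := by
        refine Finset.sum_congr rfl fun a _ => Finset.sum_congr rfl fun b _ => ?_
        simp

def ric {n : ℕ} (R : Tensor4 n) (i j : Fin n) : ℝ := ∑ k, R k i k j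

lemma scal_Q {n : ℕ} {R : Tensor4 n} (hR : IsCurvOp R) :
    scal (Q R) = ∑ p, ∑ q, (ric R p q) ^ 2 := by
  obtain ⟨a1, a2, a3⟩ := hR
  set N : ℝ := ∑ i, ∑ j, ∑ p, ∑ q, R i j p q ^ 2 with hN
  have n1 : ∑ i, ∑ j, ∑ p, ∑ q, R i p j q ^ 2 = N := by
    rw [hN]
    refine Finset.sum_congr rfl fun i _ => ?_
    rw [Finset.sum_comm]
  have n2 : ∑ i, ∑ j, ∑ p, ∑ q, R j p i q ^ 2 = N := by
    rw [← n1, Finset.sum_comm]
  have n3 : ∑ i, ∑ j, ∑ p, ∑ q, R j i p q ^ 2 = N := by
    rw [hN, Finset.sum_comm]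
  have n4 : ∑ i, ∑ j, ∑ p, ∑ q, R i p j q * R j p i q = N / 2 := by
    have e : ∑ i, ∑ j, ∑ p, ∑ q, R j i p q ^ 2 = ∑ i, ∑ j, ∑ p, ∑ q, R j p i q ^ 2
        + ∑ i, ∑ j, ∑ p, ∑ q, R i p j q ^ 2 - 2 * ∑ i, ∑ j, ∑ p, ∑ q, R i p j q * R j p i q := by
      simp only [Finset.mul_sum, ← Finset.sum_add_distrib, ← Finset.sum_sub_distrib]
      refine Finset.sum_congr rfl fun i _ => Finset.sum_congr rfl fun j _ =>
        Finset.sum_congr rfl fun p _ => Finset.sum_congr rfl fun q _ => ?_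
      have b := a3 i p j q
      have c := a1 j p i q
      have : R j i p q = R j p i q - R i p j q := by linarith
      rw [this]; ring
    rw [n1, n2, n3] at e
    linarith
  have m1 : ∑ i, ∑ j, square R i j i j = N / 2 := by
    simp only [square]
    rw [hN, Finset.sum_div]
    refine Finset.sum_congr rfl fun i _ => ?_
    rw [Finset.sum_div]
    refine Finset.sum_congr rfl fun j _ => ?_
    have e : ∑ p, ∑ q, R i j p q * R p q i j = ∑ p, ∑ q, R i j p q ^ 2 :=
      Finset.sum_congr rfl fun p _ => Finset.sum_congr rfl fun q _ => by rw [a2 i j p q]; ring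
    rw [e]; ring
  have m2 : ∑ i, ∑ j, ∑ p, ∑ q, R i p i q * R j p j q = ∑ p, ∑ q, (ric R p q) ^ 2 := by
    calc ∑ i, ∑ j, ∑ p, ∑ q, R i p i q * R j p j q
        = ∑ i, ∑ p, ∑ q, ∑ j, R i p i q * R j p j q := by
          refine Finset.sum_congr rfl fun i _ => ?_
          rw [Finset.sum_comm]
          refine Finset.sum_congr rfl fun p _ => ?_
          rw [Finset.sum_comm]
      _ = ∑ p, ∑ q, ∑ i, ∑ j, R i p i q * R j p j q := by
          rw [Finset.sum_comm]
          refine Finset.sum_congr rfl fun p _ => ?_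
          rw [Finset.sum_comm]
      _ = _ := by
          refine Finset.sum_congr rfl fun p _ => Finset.sum_congr rfl fun q _ => ?_
          rw [ric, sq, Finset.sum_mul_sum]
  have m3 : ∑ i, ∑ j, sharp R i j i j = ∑ p, ∑ q, (ric R p q) ^ 2 - N / 2 := by
    rw [← m2, ← n4]
    simp only [sharp, Finset.sum_sub_distrib]
  have : scal (Q R) = ∑ i, ∑ j, square R i j i j + ∑ i, ∑ j, sharp R i j i j := by
    simp only [scal, Q, Pi.add_apply, Finset.sum_add_distrib]
  rw [this, m1, m3]; ring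

lemma continuous_scal {n : ℕ} : Continuous (fun R : Tensor4 n => scal R) :=
  LinearMap.continuous_of_finiteDimensional (scalL n)

lemma scal_flow {n : ℕ} : RicciFlowInvariant n {R : Tensor4 n | IsCurvOp R ∧ 0 ≤ scal R} := by
  intro T γ hT h0 hcurv hder t ht
  refine ⟨hcurv t ht, ?_⟩
  have hd : ∀ s ∈ Set.Ico 0 T, HasDerivWithinAt (fun s => scal (γ s)) (scal (Q (γ s))) (Set.Ico 0 T) s := by
    intro s hs
    have := (LinearMap.toContinuousLinearMap (scalL n)).hasFDerivAt.comp_hasDerivWithinAt s (hder s hs)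
    exact this
  have hmono : MonotoneOn (fun s => scal (γ s)) (Set.Ico 0 T) := by
    apply monotoneOn_of_deriv_nonneg (convex_Ico 0 T)
    · intro s hs
      exact (hd s hs).continuousWithinAt
    · intro s hs
      rw [interior_Ico] at hs
      exact ((hd s ⟨hs.1.le, hs.2⟩).hasDerivAt (Ico_mem_nhds hs.1 hs.2)).differentiableAt.differentiableWithinAt
    · intro s hs
      rw [interior_Ico] at hs
      rw [((hd s ⟨hs.1.le, hs.2⟩).hasDerivAt (Ico_mem_nhds hs.1 hs.2)).deriv,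
        scal_Q (hcurv s ⟨hs.1.le, hs.2⟩)]
      exact Finset.sum_nonneg fun p _ => Finset.sum_nonneg fun q _ => sq_nonneg _
  have := hmono ⟨le_rfl, hT⟩ ht ht.1
  exact le_trans h0.2 this

lemma sec_scal {n : ℕ} {R : Tensor4 n} (hR : IsCurvOp R) (hs : HasNonnegSec R) : 0 ≤ scal R := by
  refine Finset.sum_nonneg fun i _ => Finset.sum_nonneg fun j _ => ?_
  by_cases hij : i = j
  · subst hij
    have := hR.1 i i i i
    linarith
  · have := hs (Pi.single i 1) (Pi.single j 1) (by simp [Pi.single_apply]) (by simp [Pi.single_apply])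
      (by simp [Pi.single_apply, Ne.symm hij])
    have e : quad R (Pi.single i 1) (Pi.single j 1) = R i j i j := q4_single R i j i j
    rwa [e] at this

lemma isClosed_curv {n : ℕ} : IsClosed {R : Tensor4 n | IsCurvOp R} := by
  have : {R : Tensor4 n | IsCurvOp R} = (curvSub n : Set (Tensor4 n)) := rfl
  rw [this]
  exact Submodule.closed_of_finiteDimensional _

lemma scal_cone {n : ℕ} (hn : 4 ≤ n) : IsCurvatureCone n {R : Tensor4 n | IsCurvOp R ∧ 0 ≤ scal R} where
  subset := fun R hR => hR.1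
  isClosed := isClosed_curv.inter (isClosed_le continuous_const continuous_scal)
  add_mem := by
    rintro R ⟨hR, hR'⟩ S ⟨hS, hS'⟩
    refine ⟨(curvSub n).add_mem hR hS, ?_⟩
    have : scal (R + S) = scal R + scal S := (scalL n).map_add R S
    rw [this]; positivity
  smul_mem := by
    rintro c hc R ⟨hR, hR'⟩
    refine ⟨(curvSub n).smul_mem c hR, ?_⟩
    have : scal (c • R) = c * scal R := (scalL n).map_smul c R
    rw [this]; positivity
  act_mem := by
    rintro g hg R ⟨hR, hR'⟩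
    exact ⟨act_curv g hR, by rwa [scal_act hg]⟩
  idOp_interior := by
    refine ⟨1 / 2, by norm_num, fun R hR hb => ⟨hR, ?_⟩⟩
    have h1 : ∀ i j : Fin n, idOp n i j i j - (if i = j then 0 else 1 / 2) ≤ R i j i j := by
      intro i j
      by_cases hij : i = j
      · subst hij
        have := hR.1 i i i i
        have h0 : R i i i i = 0 := by linarith
        simp [idOp, h0]
      · have := (abs_lt.mp (hb i j i j)).1
        simp only [if_neg hij]
        linarith
    have h2 : ∑ i : Fin n, ∑ j : Fin n, (idOp n i j i j - (if i = j then 0 else 1 / 2)) ≤ scal R :=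
      Finset.sum_le_sum fun i _ => Finset.sum_le_sum fun j _ => h1 i j
    refine le_trans (Finset.sum_nonneg fun i _ => Finset.sum_nonneg fun j _ => ?_) h2
    by_cases hij : i = j
    · simp [idOp, hij]
    · simp [idOp, hij]; norm_num
  ne_whole := by
    refine ⟨(-1 : ℝ) • idOp n, (curvSub n).smul_mem _ (idOp_curv n), fun h => ?_⟩
    have h2 : scal ((-1 : ℝ) • idOp n) = -1 * scal (idOp n) := (scalL n).map_smul _ _
    have h3 := h.2
    rw [h2, scal_idOp] at h3
    have : (4 : ℝ) ≤ n := by exact_mod_cast hn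
    nlinarith

theorem main_iff {n : ℕ} (hn : 4 ≤ n) (C : Set (Tensor4 n)) :
    (IsCurvatureCone n C ∧ RicciFlowInvariant n C ∧
      ∀ R : Tensor4 n, IsCurvOp R → HasNonnegSec R → R ∈ C) ↔
    C = {R : Tensor4 n | IsCurvOp R ∧ 0 ≤ scal R} := by
  constructor
  · rintro ⟨h1, h2, h3⟩
    exact main_forward hn h1 h2 h3
  · rintro rfl
    exact ⟨scal_cone hn, scal_flow, fun R hR hs => ⟨hR, sec_scal hR hs⟩⟩

end

end Pool.Agent.Helper81.RFCone
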